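import Mathlib

/-!
# Basic facts on the circle `ℝ/ℤ`

`ec x = exp(2 π i x)` on `UnitAddCircle`, `X x = log |1 - ec x|`, exponential sums `ES K`,
the maps `x ↦ n • x` preserve the Lebesgue measure.
-/

set_option autoImplicit false

open MeasureTheory Complex Filter Topology

namespace Pool.Agent.Konyagin

noncomputable section

/-- The character `x ↦ exp (2 π i x)` of the unit circle group `ℝ/ℤ`. -/
def ec (x : UnitAddCircle) : ℂ := (AddCircle.toCircle x : ℂ)

/-- `log |1 - exp (2 π i x)|`. -/
def X (x : UnitAddCircle) : ℝ := Real.log ‖1 - ec x‖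

/-- The exponential sum with exponent set `K`. -/
def ES (K : Finset ℕ) (x : UnitAddCircle) : ℂ := ∑ k ∈ K, ec x ^ k

theorem ec_add (x y : UnitAddCircle) : ec (x + y) = ec x * ec y := by
  simp [ec, AddCircle.toCircle_add]

theorem ec_zero : ec 0 = 1 := by simp [ec]

theorem norm_ec (x : UnitAddCircle) : ‖ec x‖ = 1 := Circle.norm_coe _

theorem ec_ne_zero (x : UnitAddCircle) : ec x ≠ 0 := by
  intro h
  have := norm_ec x
  rw [h, norm_zero] at this
  exact zero_ne_one this

theorem ec_nsmul (n : ℕ) (x : UnitAddCircle) : ec (n • x) = ec x ^ n := by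
  induction n with
  | zero => simp [ec_zero]
  | succ k ih => rw [succ_nsmul, ec_add, ih, pow_succ]

theorem ec_coe (t : ℝ) : ec (t : UnitAddCircle) = Complex.exp (2 * Real.pi * t * I) := by
  simp [ec, AddCircle.toCircle_apply_mk, Circle.coe_exp]

theorem continuous_ec : Continuous ec := by
  unfold ec
  exact continuous_subtype_val.comp AddCircle.continuous_toCircle

theorem ec_eq_one_iff (x : UnitAddCircle) : ec x = 1 ↔ x = 0 := by
  constructor
  · intro h
    have h1 : AddCircle.toCircle x = AddCircle.toCircle (0 : UnitAddCircle) := by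
      apply Circle.ext
      have : ((AddCircle.toCircle (0 : UnitAddCircle) : Circle) : ℂ) = 1 := ec_zero
      rw [this]
      exact h
    exact AddCircle.injective_toCircle one_ne_zero h1
  · rintro rfl
    exact ec_zero

theorem measurePreserving_nsmul' {n : ℕ} (hn : 0 < n) :
    MeasurePreserving (fun x : UnitAddCircle => n • x) volume volume := by
  have h := Measure.measurePreserving_zsmul (volume : Measure UnitAddCircle) (n := (n : ℤ))
    (by exact_mod_cast hn.ne')
  simpa using h

end

end Pool.Agent.Konyagin
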