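import Pool.Agent.Lib.MP_9faca0_an.NormB

/-!
# JOB KER: the kernels `BB q N`

`BB q N x = ∑_{c<q} |∑_{u<N, u ≡ c mod q} e(u x)|^2`.
* `BB_le`: write `u = c + q l`, `l < L`; the inner sum has absolute value
  `|∑_{l<L} (z^q)^l| = |1 - z^{qL}| / |1 - z^q| ≤ 2 / (4 ‖q • x‖)`.
* `BB_eq`: expand the square.
* `integral_BB`: orthogonality, `∫ ec x ^ u * conj (ec x ^ v) = if u = v then 1 else 0`.
-/

set_option autoImplicit false

open MeasureTheory Complex Filter Topology
open scoped ComplexConjugate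

namespace Pool.Agent.Konyagin

/-- The kernel. -/
noncomputable def BB (q N : ℕ) (x : UnitAddCircle) : ℝ :=
  ∑ c ∈ Finset.range q, ‖∑ u ∈ (Finset.range N).filter (fun u => u % q = c), ec x ^ u‖ ^ 2

theorem BB_nonneg (q N : ℕ) (x : UnitAddCircle) : 0 ≤ BB q N x :=
  Finset.sum_nonneg fun _ _ => by positivity

theorem continuous_BB (q N : ℕ) : Continuous (BB q N) := by
  have h := continuous_ec
  unfold BB
  fun_prop

private theorem ker_card (q N : ℕ) :
    ∑ c ∈ Finset.range q, ((Finset.range N).filter (fun u => u % q = c)).card ≤ N := by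
  rcases Nat.eq_zero_or_pos q with rfl | hq
  · simp
  · have h := Finset.card_eq_sum_card_fiberwise (s := Finset.range N) (t := Finset.range q)
      (f := fun u => u % q) (fun u _ => Finset.mem_coe.2 (Finset.mem_range.2 (Nat.mod_lt u hq)))
    rw [← h, Finset.card_range]

theorem BB_le_sq (q N : ℕ) (x : UnitAddCircle) : BB q N x ≤ (N : ℝ) ^ 2 := by
  unfold BB
  have h1 : ∑ c ∈ Finset.range q,
      ‖∑ u ∈ (Finset.range N).filter (fun u => u % q = c), ec x ^ u‖ ^ 2
      ≤ (∑ c ∈ Finset.range q,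
      ‖∑ u ∈ (Finset.range N).filter (fun u => u % q = c), ec x ^ u‖) ^ 2 :=
    Finset.sum_sq_le_sq_sum_of_nonneg fun i _ => norm_nonneg _
  refine h1.trans ?_
  have h2 : ∑ c ∈ Finset.range q,
      ‖∑ u ∈ (Finset.range N).filter (fun u => u % q = c), ec x ^ u‖ ≤ (N : ℝ) := by
    have h3 : ∀ c ∈ Finset.range q,
        ‖∑ u ∈ (Finset.range N).filter (fun u => u % q = c), ec x ^ u‖
        ≤ ((((Finset.range N).filter (fun u => u % q = c)).card : ℕ) : ℝ) := by
      intro c _
      refine (norm_sum_le _ _).trans ?_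
      have h4 : ∀ u ∈ (Finset.range N).filter (fun u => u % q = c), ‖ec x ^ u‖ = 1 := by
        intro u _
        rw [norm_pow, norm_ec, one_pow]
      rw [Finset.sum_congr rfl h4]
      simp
    refine (Finset.sum_le_sum h3).trans ?_
    rw [← Nat.cast_sum]
    exact_mod_cast ker_card q N
  exact pow_le_pow_left₀ (Finset.sum_nonneg fun _ _ => norm_nonneg _) h2 2

private theorem ker_filter {q : ℕ} (hq : 0 < q) (N : ℕ) {c : ℕ} (hc : c < q) :
    (Finset.range N).filter (fun u => u % q = c)
      = (Finset.range ((N - c + q - 1) / q)).image (fun l => c + q * l) := by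
  ext u
  rw [Finset.mem_filter, Finset.mem_range, Finset.mem_image]
  constructor
  · rintro ⟨h1, h2⟩
    refine ⟨u / q, ?_, ?_⟩
    · rw [Finset.mem_range, Nat.lt_iff_add_one_le, Nat.le_div_iff_mul_le hq, add_mul, one_mul]
      have h3 := Nat.mod_add_div u q
      rw [h2, mul_comm] at h3
      omega
    · rw [← h2]
      exact Nat.mod_add_div u q
  · rintro ⟨l, hl, rfl⟩
    rw [Finset.mem_range, Nat.lt_iff_add_one_le, Nat.le_div_iff_mul_le hq, add_mul, one_mul] at hl
    constructor
    · rw [mul_comm q l]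
      omega
    · rw [Nat.add_mul_mod_self_left, Nat.mod_eq_of_lt hc]

theorem BB_le {q : ℕ} (hq : 0 < q) (N : ℕ) {x : UnitAddCircle} (hx : q • x ≠ 0) :
    BB q N x ≤ q / (4 * ‖q • x‖ ^ 2) := by
  unfold BB
  have hpos : 0 < ‖q • x‖ := norm_pos_iff.2 hx
  have hne : ec (q • x) ≠ 1 := fun h => hx ((ec_eq_one_iff _).1 h)
  have h1 : ∀ c ∈ Finset.range q,
      ‖∑ u ∈ (Finset.range N).filter (fun u => u % q = c), ec x ^ u‖ ^ 2
        ≤ 1 / (4 * ‖q • x‖ ^ 2) := by
    intro c hc
    rw [ker_filter hq N (Finset.mem_range.1 hc), Finset.sum_image (by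
      intro a _ b _ hab
      have h2 : c + q * a = c + q * b := hab
      exact Nat.eq_of_mul_eq_mul_left hq (Nat.add_left_cancel h2))]
    have h2 : ∀ l ∈ Finset.range ((N - c + q - 1) / q),
        ec x ^ (c + q * l) = ec x ^ c * ec (q • x) ^ l := by
      intro l _
      rw [pow_add, pow_mul, ec_nsmul]
    rw [Finset.sum_congr rfl h2, ← Finset.mul_sum, norm_mul, norm_pow, norm_ec, one_pow, one_mul,
      geom_sum_eq hne, norm_div]
    have h3 : ‖ec (q • x) ^ ((N - c + q - 1) / q) - 1‖ ≤ 2 := by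
      refine (norm_sub_le _ _).trans ?_
      rw [norm_pow, norm_ec, one_pow, norm_one]
      norm_num
    have h4 : 4 * ‖q • x‖ ≤ ‖ec (q • x) - 1‖ := by
      rw [norm_sub_rev]
      exact norm_one_sub_ge _
    have h5 : ‖ec (q • x) ^ ((N - c + q - 1) / q) - 1‖ / ‖ec (q • x) - 1‖ ≤ 2 / (4 * ‖q • x‖) :=
      div_le_div₀ (by norm_num) h3 (by positivity) h4
    refine (pow_le_pow_left₀ (by positivity) h5 2).trans (le_of_eq ?_)
    field_simp
    norm_num
  refine (Finset.sum_le_sum h1).trans (le_of_eq ?_)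
  rw [Finset.sum_const, Finset.card_range, nsmul_eq_mul]
  ring

private theorem ker_expand (s : Finset ℕ) (x : UnitAddCircle) :
    ‖∑ u ∈ s, ec x ^ u‖ ^ 2 = ∑ u ∈ s, ∑ v ∈ s, (ec x ^ u * conj (ec x ^ v)).re := by
  have h1 : (‖∑ u ∈ s, ec x ^ u‖ ^ 2 : ℝ)
      = ((∑ u ∈ s, ec x ^ u) * conj (∑ u ∈ s, ec x ^ u)).re := by
    rw [Complex.mul_conj, Complex.ofReal_re, Complex.normSq_eq_norm_sq]
  rw [h1, map_sum, Finset.sum_mul_sum, Complex.re_sum]
  exact Finset.sum_congr rfl fun u _ => by rw [Complex.re_sum]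

theorem BB_eq {q : ℕ} (hq : 0 < q) (N : ℕ) (x : UnitAddCircle) :
    BB q N x = ∑ u ∈ Finset.range N, ∑ v ∈ Finset.range N,
      if u % q = v % q then (ec x ^ u * conj (ec x ^ v)).re else 0 := by
  unfold BB
  simp_rw [ker_expand, Finset.sum_filter]
  rw [Finset.sum_comm]
  refine Finset.sum_congr rfl fun u _ => ?_
  rw [Finset.sum_eq_single (u % q)]
  · rw [if_pos rfl]
    refine Finset.sum_congr rfl fun v _ => ?_
    by_cases h : u % q = v % q
    · rw [if_pos h, if_pos h.symm]
    · rw [if_neg h, if_neg (Ne.symm h)]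
  · intro c _ hc
    rw [if_neg (Ne.symm hc)]
  · intro h
    exact absurd (Finset.mem_range.2 (Nat.mod_lt u hq)) h

private theorem ker_orth (u v : ℕ) :
    ∫ x : UnitAddCircle, (ec x ^ u * conj (ec x ^ v)).re = if u = v then 1 else 0 := by
  by_cases huv : u = v
  · subst huv
    rw [if_pos rfl]
    have h1 : ∀ x : UnitAddCircle, (ec x ^ u * conj (ec x ^ u)).re = 1 := by
      intro x
      rw [Complex.mul_conj, Complex.ofReal_re, Complex.normSq_eq_norm_sq, norm_pow, norm_ec,
        one_pow, one_pow]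
    simp_rw [h1]
    rw [integral_const, measureReal_def, UnitAddCircle.measure_univ]
    simp
  · rw [if_neg huv]
    have h1 : ∀ (n : ℕ) (x : UnitAddCircle), ec x ^ n = fourier (n : ℤ) x := by
      intro n x
      rw [fourier_apply, natCast_zsmul, ← ec_nsmul]
      rfl
    have h2 : ∀ x : UnitAddCircle, (ec x ^ u * conj (ec x ^ v))
        = fourier ((u : ℤ) + -(v : ℤ)) x := by
      intro x
      rw [fourier_add, fourier_neg, h1, h1]
    have hn : ((u : ℤ) + -(v : ℤ)) ≠ 0 := by
      intro h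
      apply huv
      omega
    apply integral_eq_zero_of_add_right_eq_neg (g := (((1 : ℝ) / 2 / (((u : ℤ) + -(v : ℤ) : ℤ) : ℝ)
      : ℝ) : UnitAddCircle))
    intro x
    rw [h2, h2, fourier_add_half_inv_index hn one_pos x, Complex.neg_re]

theorem lintegral_BB {q : ℕ} (hq : 0 < q) (N : ℕ) :
    ∫⁻ x, ENNReal.ofReal (BB q N x) = N := by
  have hc : ∀ u v : ℕ, Continuous fun x : UnitAddCircle => (ec x ^ u * conj (ec x ^ v)).re := by
    intro u v
    exact Complex.continuous_re.comp ((continuous_ec.pow u).mul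
      (Complex.continuous_conj.comp (continuous_ec.pow v)))
  have hi : ∀ u v : ℕ, Integrable fun x : UnitAddCircle =>
      (if u % q = v % q then (ec x ^ u * conj (ec x ^ v)).re else 0 : ℝ) := by
    intro u v
    by_cases h : u % q = v % q
    · simp only [if_pos h]
      exact (hc u v).integrable_of_hasCompactSupport (HasCompactSupport.of_compactSpace _)
    · simp only [if_neg h]
      exact integrable_zero _ _ _
  rw [← ofReal_integral_eq_lintegral_ofReal
    ((continuous_BB q N).integrable_of_hasCompactSupport (HasCompactSupport.of_compactSpace _))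
    (Filter.Eventually.of_forall (BB_nonneg q N))]
  have h1 : ∫ x : UnitAddCircle, BB q N x = N := by
    simp_rw [BB_eq hq N]
    rw [integral_finsetSum _ fun u _ => integrable_finsetSum _ fun v _ => hi u v]
    have h2 : ∀ u ∈ Finset.range N, ∫ x : UnitAddCircle, ∑ v ∈ Finset.range N,
        (if u % q = v % q then (ec x ^ u * conj (ec x ^ v)).re else 0 : ℝ) = 1 := by
      intro u hu
      rw [integral_finsetSum _ fun v _ => hi u v, Finset.sum_eq_single u]
      · simp only [if_pos]
        rw [ker_orth, if_pos rfl]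
      · intro v _ hv
        by_cases h : u % q = v % q
        · simp only [if_pos h]
          rw [ker_orth, if_neg (Ne.symm hv)]
        · simp only [if_neg h]
          exact integral_zero _ _
      · intro h
        exact absurd hu h
    rw [Finset.sum_congr rfl h2]
    simp
  rw [h1]
  simp

/-- The full kernel. -/
theorem norm_sum_sq (N : ℕ) (x : UnitAddCircle) :
    ‖∑ u ∈ Finset.range N, ec x ^ u‖ ^ 2 =
      ∑ u ∈ Finset.range N, ∑ v ∈ Finset.range N, (ec x ^ u * conj (ec x ^ v)).re :=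
  ker_expand _ x

end Pool.Agent.Konyagin
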