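import Pool.Agent.Lib.MP_9faca0_an.Ker

/-!
# JOB LOGSER: the logarithmic series and the product over pairs

* `hasSum_log`: real part of `Complex.hasSum_taylorSeries_neg_log` (shifted by one; the term of
  index `0` is `0`), `Real.log ‖w‖ = (Complex.log w).re`.
* `norm_one_sub_le_r`: square both sides; `‖1 - z‖^2 = 2 - 2 Re z`, `‖1 - r z‖^2 = 1 - 2 r Re z + r^2`.
-/

set_option autoImplicit false

open MeasureTheory Complex Filter Topology
open scoped ComplexConjugate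

namespace Pool.Agent.Konyagin

theorem hasSum_log {r : ℝ} (hr0 : 0 ≤ r) (hr1 : r < 1) {z : ℂ} (hz : ‖z‖ = 1) :
    HasSum (fun j : ℕ => r ^ (j + 1) / ((j : ℝ) + 1) * (z ^ (j + 1)).re)
      (-Real.log ‖1 - (r : ℂ) * z‖) := by
  have h1 : ‖(r : ℂ) * z‖ < 1 := by
    rw [norm_mul, hz, mul_one, Complex.norm_real, Real.norm_of_nonneg hr0]
    exact hr1
  have h2 := Complex.hasSum_taylorSeries_neg_log h1
  have h3 := (hasSum_nat_add_iff' 1).2 h2
  have h4 := Complex.hasSum_re h3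
  have e1 : (-Complex.log (1 - (r : ℂ) * z) -
      ∑ i ∈ Finset.range 1, ((r : ℂ) * z) ^ i / (i : ℂ)).re = -Real.log ‖1 - (r : ℂ) * z‖ := by
    simp [Complex.log_re]
  rw [e1] at h4
  refine h4.congr_fun fun j => ?_
  have e2 : ((r : ℂ) * z) ^ (j + 1) / ((j + 1 : ℕ) : ℂ) =
      ((r ^ (j + 1) / ((j : ℝ) + 1) : ℝ) : ℂ) * z ^ (j + 1) := by
    push_cast
    rw [mul_pow]
    ring
  rw [e2, Complex.re_ofReal_mul]

theorem norm_one_sub_le_r {r : ℝ} (hr0 : 0 ≤ r) (hr1 : r ≤ 1) {z : ℂ} (hz : ‖z‖ = 1) :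
    ‖1 - z‖ ≤ 2 / (1 + r) * ‖1 - (r : ℂ) * z‖ := by
  have hz2 : z.re ^ 2 + z.im ^ 2 = 1 := by
    have h := Complex.sq_norm z
    rw [hz, Complex.normSq_apply] at h
    nlinarith
  have h1 : ‖1 - z‖ ^ 2 = 2 - 2 * z.re := by
    rw [Complex.sq_norm, Complex.normSq_apply]
    simp only [Complex.sub_re, Complex.one_re, Complex.sub_im, Complex.one_im]
    nlinarith
  have h2 : ‖1 - (r : ℂ) * z‖ ^ 2 = 1 - 2 * r * z.re + r ^ 2 := by
    rw [Complex.sq_norm, Complex.normSq_apply]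
    simp only [Complex.sub_re, Complex.one_re, Complex.sub_im, Complex.one_im, Complex.mul_re,
      Complex.mul_im, Complex.ofReal_re, Complex.ofReal_im]
    nlinarith
  have hre : -1 ≤ z.re := by nlinarith [sq_nonneg z.im]
  have hpos : 0 < 1 + r := by linarith
  rw [div_mul_eq_mul_div, le_div_iff₀ hpos]
  apply le_of_sq_le_sq _ (by positivity)
  rw [mul_pow, mul_pow, h1, h2]
  nlinarith [mul_nonneg (sq_nonneg (1 - r)) (by linarith : 0 ≤ 1 + z.re)]

/-- Absolute difference of natural numbers. -/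
def dd (u v : ℕ) : ℕ := (u - v) + (v - u)

theorem re_dd (x : UnitAddCircle) (u v : ℕ) :
    (ec x ^ u * conj (ec x ^ v)).re = (ec x ^ dd u v).re := by
  have h1 : ∀ n : ℕ, ec x ^ n * conj (ec x ^ n) = 1 := by
    intro n
    rw [Complex.mul_conj, Complex.normSq_eq_norm_sq, norm_pow, norm_ec]
    simp
  rcases le_total v u with h | h
  · have e : dd u v = u - v := by unfold dd; omega
    rw [e]
    have e2 : ec x ^ u = ec x ^ (u - v) * ec x ^ v := by
      rw [← pow_add]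
      congr 1
      omega
    rw [e2, mul_assoc, h1, mul_one]
  · have e : dd u v = v - u := by unfold dd; omega
    rw [e]
    have e2 : ec x ^ v = ec x ^ (v - u) * ec x ^ u := by
      rw [← pow_add]
      congr 1
      omega
    rw [e2, map_mul, mul_left_comm, h1, mul_one, Complex.conj_re]

/-- The number of `i < t` with `q i ∣ u - v`. -/
def om (t : ℕ) (q : ℕ → ℕ) (u v : ℕ) : ℕ :=
  ((Finset.range t).filter fun i => u % q i = v % q i).card

/-- The combined kernel inequality. -/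
theorem kernel_ineq (t : ℕ) {q : ℕ → ℕ} (hq : ∀ i, 0 < q i) (N : ℕ) (x : UnitAddCircle) :
    (t : ℝ) * N - 2 * ∑ i ∈ Finset.range t, BB (q i) N x ≤
      ∑ p ∈ (Finset.range N ×ˢ Finset.range N).filter (fun p => p.1 ≠ p.2),
        ((t : ℝ) - 2 * om t q p.1 p.2) * (ec x ^ dd p.1 p.2).re := by
  set f : ℕ × ℕ → ℝ := fun p =>
    ((t : ℝ) - 2 * om t q p.1 p.2) * (ec x ^ dd p.1 p.2).re with hf
  have hom : ∀ u v, (om t q u v : ℝ) =
      ∑ i ∈ Finset.range t, if u % q i = v % q i then (1 : ℝ) else 0 := by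
    intro u v
    unfold om
    rw [Finset.card_filter]
    push_cast
    rfl
  have hfull : ∑ p ∈ Finset.range N ×ˢ Finset.range N, f p =
      t * ‖∑ u ∈ Finset.range N, ec x ^ u‖ ^ 2 - 2 * ∑ i ∈ Finset.range t, BB (q i) N x := by
    have e1 : ∀ p : ℕ × ℕ, f p = t * (ec x ^ p.1 * conj (ec x ^ p.2)).re -
        2 * ∑ i ∈ Finset.range t,
          if p.1 % q i = p.2 % q i then (ec x ^ p.1 * conj (ec x ^ p.2)).re else 0 := by
      intro p
      simp only [hf]
      rw [hom, ← re_dd, sub_mul, mul_assoc, Finset.sum_mul]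
      congr 2
      refine Finset.sum_congr rfl fun i _ => ?_
      split_ifs <;> simp
    simp only [e1]
    rw [Finset.sum_sub_distrib, ← Finset.mul_sum, ← Finset.mul_sum, Finset.sum_comm,
      Finset.sum_product, norm_sum_sq]
    congr 2
    refine Finset.sum_congr rfl fun i _ => ?_
    rw [BB_eq (hq i), Finset.sum_product]
  have hsplit := Finset.sum_filter_add_sum_filter_not (Finset.range N ×ˢ Finset.range N)
    (fun p => p.1 ≠ p.2) f
  have hdiag : ∑ p ∈ (Finset.range N ×ˢ Finset.range N).filter (fun p => ¬ p.1 ≠ p.2), f p =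
      -(t * N) := by
    rw [Finset.sum_filter, Finset.sum_product]
    have e1 : ∀ u ∈ Finset.range N,
        (∑ v ∈ Finset.range N, if ¬ (u ≠ v) then f (u, v) else 0) = -(t : ℝ) := by
      intro u hu
      have e2 : ∀ v, (if ¬ (u ≠ v) then f (u, v) else 0) = if u = v then f (u, u) else 0 := by
        intro v
        by_cases h : u = v
        · subst h; simp
        · simp [h]
      simp only [e2]
      rw [Finset.sum_ite_eq, if_pos hu]
      simp only [hf]
      have e3 : om t q u u = t := by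
        unfold om
        simp
      have e4 : dd u u = 0 := by unfold dd; omega
      rw [e3, e4, pow_zero, Complex.one_re]
      ring
    rw [Finset.sum_congr rfl e1]
    simp
    ring
  rw [hdiag, hfull] at hsplit
  have h0 : 0 ≤ (t : ℝ) * ‖∑ u ∈ Finset.range N, ec x ^ u‖ ^ 2 := by positivity
  linarith

/-- The sum `T = ∑_j r^j / j * BB q N (j x)` as an extended nonnegative number. -/
noncomputable def TT (r : ℝ) (q N : ℕ) (x : UnitAddCircle) : ENNReal :=
  ∑' j : ℕ, ENNReal.ofReal (r ^ (j + 1) / ((j : ℝ) + 1) * BB q N ((j + 1) • x))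

/-- The logarithm of the product over all pairs. `1 - r = 1/N`. -/
theorem log_prod_le (t : ℕ) {q : ℕ → ℕ} (hq : ∀ i, 0 < q i) {N : ℕ} (hN : 2 ≤ N)
    (hom : ∀ u < N, ∀ v < N, u ≠ v → 2 * om t q u v ≤ t) {x : UnitAddCircle} {c : ℝ}
    (hT : ∑ i ∈ Finset.range t, TT (1 - 1 / (N : ℝ)) (q i) N x ≤ ENNReal.ofReal c) (hc : 0 ≤ c) :
    ∏ p ∈ (Finset.range N ×ˢ Finset.range N).filter (fun p => p.1 ≠ p.2),
        ‖1 - ec x ^ dd p.1 p.2‖ ^ (t - 2 * om t q p.1 p.2) ≤
      Real.exp ((t : ℝ) * N * (1 - Real.log N) + 2 * c) := by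
  set P := (Finset.range N ×ˢ Finset.range N).filter (fun p : ℕ × ℕ => p.1 ≠ p.2) with hP
  set r : ℝ := 1 - 1 / (N : ℝ) with hr
  have hN2 : (2 : ℝ) ≤ N := by exact_mod_cast hN
  have hN0 : (0 : ℝ) < N := by linarith
  have hNi : 0 < 1 / (N : ℝ) := by positivity
  have hNi1 : 1 / (N : ℝ) ≤ 1 := by
    rw [div_le_one hN0]
    linarith
  have hr0 : 0 ≤ r := by linarith
  have hr1 : r < 1 := by linarith
  have hz : ∀ n : ℕ, ‖ec x ^ n‖ = 1 := by
    intro n
    rw [norm_pow, norm_ec, one_pow]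
  let k : ℕ × ℕ → ℕ := fun p => t - 2 * om t q p.1 p.2
  have hk : ∀ p ∈ P, (k p : ℝ) = (t : ℝ) - 2 * om t q p.1 p.2 := by
    intro p hp
    rw [hP, Finset.mem_filter, Finset.mem_product, Finset.mem_range, Finset.mem_range] at hp
    have h := hom p.1 hp.1.1 p.2 hp.1.2 hp.2
    simp only [k]
    rw [Nat.cast_sub h]
    push_cast
    ring
  have hpos : ∀ p : ℕ × ℕ, 0 < ‖1 - (r : ℂ) * ec x ^ dd p.1 p.2‖ := by
    intro p
    rw [norm_pos_iff]
    intro h
    have h1 : (r : ℂ) * ec x ^ dd p.1 p.2 = 1 := (sub_eq_zero.1 h).symm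
    have h2 : ‖(r : ℂ) * ec x ^ dd p.1 p.2‖ = r := by
      rw [norm_mul, hz, mul_one, Complex.norm_real, Real.norm_of_nonneg hr0]
    rw [h1, norm_one] at h2
    linarith
  have hr2 : 0 < 2 / (1 + r) := by positivity
  have h1 : ∏ p ∈ P, ‖1 - ec x ^ dd p.1 p.2‖ ^ (t - 2 * om t q p.1 p.2) ≤
      ∏ p ∈ P, (2 / (1 + r) * ‖1 - (r : ℂ) * ec x ^ dd p.1 p.2‖) ^ k p := by
    refine Finset.prod_le_prod (fun p _ => by positivity) fun p _ => ?_
    exact pow_le_pow_left₀ (norm_nonneg _) (norm_one_sub_le_r hr0 hr1.le (hz _)) _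
  have h2 : ∏ p ∈ P, (2 / (1 + r) * ‖1 - (r : ℂ) * ec x ^ dd p.1 p.2‖) ^ k p =
      Real.exp (∑ p ∈ P, ((k p : ℝ) * Real.log (2 / (1 + r)) +
        (k p : ℝ) * Real.log ‖1 - (r : ℂ) * ec x ^ dd p.1 p.2‖)) := by
    rw [Real.exp_sum]
    refine Finset.prod_congr rfl fun p _ => ?_
    rw [← mul_add, ← Real.log_mul hr2.ne' (hpos p).ne', ← Real.log_pow, Real.exp_log]
    exact pow_pos (mul_pos hr2 (hpos p)) _
  refine h1.trans ?_
  rw [h2, Finset.sum_add_distrib]
  apply Real.exp_le_exp.2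
  have hcard : (P.card : ℝ) ≤ (N : ℝ) ^ 2 := by
    have h : P.card ≤ N * N := by
      refine (Finset.card_filter_le _ _).trans ?_
      rw [Finset.card_product, Finset.card_range]
    calc (P.card : ℝ) ≤ ((N * N : ℕ) : ℝ) := by exact_mod_cast h
      _ = (N : ℝ) ^ 2 := by push_cast; ring
  have h3 : ∑ p ∈ P, (k p : ℝ) * Real.log (2 / (1 + r)) ≤ t * N := by
    have hl : Real.log (2 / (1 + r)) ≤ 1 / N := by
      have h := Real.log_le_sub_one_of_pos hr2
      have h' : 2 / (1 + r) - 1 ≤ 1 / (N : ℝ) := by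
        rw [sub_le_iff_le_add, div_le_iff₀ (by linarith : (0 : ℝ) < 1 + r)]
        nlinarith
      linarith
    have hkt : ∀ p, (k p : ℝ) ≤ t := by
      intro p
      have : k p ≤ t := Nat.sub_le _ _
      exact_mod_cast this
    calc ∑ p ∈ P, (k p : ℝ) * Real.log (2 / (1 + r)) ≤ ∑ _p ∈ P, (t : ℝ) * (1 / N) := by
          refine Finset.sum_le_sum fun p _ => ?_
          calc (k p : ℝ) * Real.log (2 / (1 + r)) ≤ (k p : ℝ) * (1 / N) :=
                mul_le_mul_of_nonneg_left hl (Nat.cast_nonneg _)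
            _ ≤ (t : ℝ) * (1 / N) := mul_le_mul_of_nonneg_right (hkt p) hNi.le
      _ = P.card * ((t : ℝ) * (1 / N)) := by rw [Finset.sum_const, nsmul_eq_mul]
      _ ≤ (N : ℝ) ^ 2 * ((t : ℝ) * (1 / N)) :=
          mul_le_mul_of_nonneg_right hcard (by positivity)
      _ = t * N := by field_simp
  -- the bound for the truncated sums
  have hc' : ∀ n : ℕ, ∑ j ∈ Finset.range n, ∑ i ∈ Finset.range t,
      r ^ (j + 1) / ((j : ℝ) + 1) * BB (q i) N ((j + 1) • x) ≤ c := by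
    intro n
    have ha : ∀ (j i : ℕ), 0 ≤ r ^ (j + 1) / ((j : ℝ) + 1) * BB (q i) N ((j + 1) • x) := by
      intro j i
      have := BB_nonneg (q i) N ((j + 1) • x)
      positivity
    rw [← ENNReal.ofReal_le_ofReal_iff hc, Finset.sum_comm]
    refine le_trans ?_ hT
    rw [ENNReal.ofReal_sum_of_nonneg fun i _ => Finset.sum_nonneg fun j _ => ha j i]
    refine Finset.sum_le_sum fun i _ => ?_
    rw [ENNReal.ofReal_sum_of_nonneg fun j _ => ha j i]
    exact ENNReal.sum_le_tsum (Finset.range n)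
  have hS : HasSum (fun j : ℕ => ∑ p ∈ P, (k p : ℝ) *
      (r ^ (j + 1) / ((j : ℝ) + 1) * ((ec x ^ dd p.1 p.2) ^ (j + 1)).re))
      (∑ p ∈ P, (k p : ℝ) * (-Real.log ‖1 - (r : ℂ) * ec x ^ dd p.1 p.2‖)) :=
    hasSum_sum fun p _ => (hasSum_log hr0 hr1 (hz (dd p.1 p.2))).mul_left _
  have hL : HasSum (fun j : ℕ => r ^ (j + 1) / ((j : ℝ) + 1)) (Real.log N) := by
    have h := hasSum_log hr0 hr1 (z := 1) norm_one
    have e : -Real.log ‖1 - (r : ℂ) * 1‖ = Real.log N := by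
      have e1 : (1 - (r : ℂ) * 1) = ((1 / (N : ℝ) : ℝ) : ℂ) := by
        rw [hr]
        push_cast
        ring
      rw [e1, Complex.norm_real, Real.norm_of_nonneg hNi.le, one_div, Real.log_inv, neg_neg]
    rw [e] at h
    simpa using h
  have hS' := (hS.tendsto_sum_nat)
  have hL' := (hL.tendsto_sum_nat).const_mul ((t : ℝ) * N)
  have hL'' := hL'.sub_const (2 * c)
  have h4 := le_of_tendsto_of_tendsto' hL'' hS' (fun n => by
    have e1 : ∀ j : ℕ, r ^ (j + 1) / ((j : ℝ) + 1) * ((t : ℝ) * N -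
        2 * ∑ i ∈ Finset.range t, BB (q i) N ((j + 1) • x)) ≤
        ∑ p ∈ P, (k p : ℝ) *
          (r ^ (j + 1) / ((j : ℝ) + 1) * ((ec x ^ dd p.1 p.2) ^ (j + 1)).re) := by
      intro j
      have h := kernel_ineq t hq N ((j + 1) • x)
      have hj : 0 ≤ r ^ (j + 1) / ((j : ℝ) + 1) := by positivity
      refine (mul_le_mul_of_nonneg_left h hj).trans (le_of_eq ?_)
      rw [Finset.mul_sum]
      refine Finset.sum_congr rfl fun p hp => ?_
      rw [hk p hp, ec_nsmul, ← pow_mul, ← pow_mul, mul_comm (j + 1) (dd p.1 p.2)]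
      ring
    have e2 := Finset.sum_le_sum fun j (_ : j ∈ Finset.range n) => e1 j
    have e3 : ∑ j ∈ Finset.range n, r ^ (j + 1) / ((j : ℝ) + 1) * ((t : ℝ) * N -
        2 * ∑ i ∈ Finset.range t, BB (q i) N ((j + 1) • x)) =
        (t : ℝ) * N * ∑ j ∈ Finset.range n, r ^ (j + 1) / ((j : ℝ) + 1) -
        2 * ∑ j ∈ Finset.range n, ∑ i ∈ Finset.range t,
          r ^ (j + 1) / ((j : ℝ) + 1) * BB (q i) N ((j + 1) • x) := by
      rw [Finset.mul_sum, Finset.mul_sum, ← Finset.sum_sub_distrib]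
      refine Finset.sum_congr rfl fun j _ => ?_
      rw [← Finset.mul_sum]
      ring
    rw [e3] at e2
    have := hc' n
    linarith)
  have h5 : ∑ p ∈ P, (k p : ℝ) * (-Real.log ‖1 - (r : ℂ) * ec x ^ dd p.1 p.2‖) =
      -∑ p ∈ P, (k p : ℝ) * Real.log ‖1 - (r : ℂ) * ec x ^ dd p.1 p.2‖ := by
    rw [← Finset.sum_neg_distrib]
    exact Finset.sum_congr rfl fun p _ => by ring
  rw [h5] at h4
  nlinarith

end Pool.Agent.Konyagin
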