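import Pool.Agent.Lib.MP_9faca0_an.Basic

/-!
# JOB NORM: size of `1 - ec x`, square integrability of `X`

`‖x‖` is the distance to the nearest integer (`UnitAddCircle.norm_eq`).
* `|1 - exp(2 π i t)| = 2 |sin (π t)|` and `sin (π t) ≥ 2 t` for `0 ≤ t ≤ 1/2`
  (`Real.mul_le_sin`), so `4 ‖x‖ ≤ ‖1 - ec x‖ ≤ 2`.
* `X` is square integrable: `|X x| ≤ log 2 + |log (4 ‖x‖)|`-type bound, `log (1/v) ≤ 4 v^(-1/4)`,
  so `X x ^ 2 ≤ C * ‖x‖ ^ (-1/2)`, which is integrable (use `UnitAddCircle.lintegral_preimage`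
  with `t = -1/2`, on `Ioc (-1/2) (1/2)` the norm of `x` is `|x|`).
* `∫_{‖x‖ ≥ δ} ‖x‖^(-2) = 2 (1/δ - 2) ≤ 2/δ`, same reduction to the interval.
-/

set_option autoImplicit false

open MeasureTheory Complex Filter Topology

namespace Pool.Agent.Konyagin

private theorem normB_exists_rep (x : UnitAddCircle) :
    ∃ t : ℝ, (t : UnitAddCircle) = x ∧ ‖x‖ = |t| ∧ |t| ≤ 1 / 2 := by
  obtain ⟨s, rfl⟩ := QuotientAddGroup.mk_surjective x
  have h1 : ((s - (round s : ℝ) : ℝ) : UnitAddCircle) = (s : UnitAddCircle) := by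
    rw [AddCircle.coe_sub]
    have : (((round s : ℤ) : ℝ) : UnitAddCircle) = 0 := by
      rw [AddCircle.coe_eq_zero_iff]
      exact ⟨round s, by simp⟩
    rw [this, sub_zero]
  refine ⟨s - round s, h1, UnitAddCircle.norm_eq, abs_sub_round s⟩

theorem norm_one_sub_ge (x : UnitAddCircle) : 4 * ‖x‖ ≤ ‖1 - ec x‖ := by
  obtain ⟨t, rfl, ht, ht2⟩ := normB_exists_rep x
  rw [ht, ec_coe, norm_sub_rev]
  have h1 : Complex.exp (2 * Real.pi * t * I) = Complex.exp (I * ((2 * Real.pi * t : ℝ) : ℂ)) := by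
    congr 1
    push_cast
    ring
  rw [h1, Complex.norm_exp_I_mul_ofReal_sub_one]
  have h2 : 2 * Real.pi * t / 2 = Real.pi * t := by ring
  rw [h2, norm_mul, Real.norm_eq_abs, Real.norm_eq_abs, abs_two]
  have h3 : |Real.sin (Real.pi * t)| = Real.sin (Real.pi * |t|) := by
    have hnn : 0 ≤ Real.sin (Real.pi * |t|) := by
      apply Real.sin_nonneg_of_nonneg_of_le_pi
      · positivity
      · nlinarith [Real.pi_pos, abs_nonneg t]
    rcases abs_cases t with ⟨h, _⟩ | ⟨h, _⟩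
    · rw [h] at hnn ⊢
      exact abs_of_nonneg hnn
    · rw [h] at hnn ⊢
      rw [mul_neg, Real.sin_neg] at hnn ⊢
      rw [← abs_neg]
      exact abs_of_nonneg hnn
  rw [h3]
  have h4 := Real.mul_le_sin (x := Real.pi * |t|) (by positivity)
    (by nlinarith [Real.pi_pos, abs_nonneg t])
  have h5 : 2 / Real.pi * (Real.pi * |t|) = 2 * |t| := by
    field_simp
  rw [h5] at h4
  linarith

theorem norm_one_sub_le (x : UnitAddCircle) : ‖1 - ec x‖ ≤ 2 := by
  calc ‖1 - ec x‖ ≤ ‖(1 : ℂ)‖ + ‖ec x‖ := norm_sub_le _ _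
    _ = 2 := by rw [norm_one, norm_ec]; norm_num

theorem measurable_X : Measurable X := by
  unfold X
  exact Real.measurable_log.comp (continuous_const.sub continuous_ec).norm.measurable

private theorem normB_lintegral (F : ℝ → ENNReal) :
    ∫⁻ x : UnitAddCircle, F ‖x‖ ≤ 2 * ∫⁻ t in Set.Icc (0 : ℝ) (1 / 2), F t := by
  rw [← UnitAddCircle.lintegral_preimage (-(1 / 2)) (fun x => F ‖x‖)]
  have h1 : ∫⁻ a in Set.Ioc (-(1 / 2) : ℝ) (-(1 / 2) + 1), F ‖((a : ℝ) : UnitAddCircle)‖ =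
      ∫⁻ a in Set.Ioc (-(1 / 2) : ℝ) (-(1 / 2) + 1), F |a| := by
    apply setLIntegral_congr_fun measurableSet_Ioc
    intro a ha
    have : ‖((a : ℝ) : UnitAddCircle)‖ = |a| := by
      rw [AddCircle.norm_coe_eq_abs_iff 1 one_ne_zero, abs_one, abs_le]
      constructor
      · linarith [ha.1]
      · linarith [ha.2]
    simp only [this]
  rw [h1]
  have h2 : Set.Ioc (-(1 / 2) : ℝ) (-(1 / 2) + 1) ⊆
      (Neg.neg ⁻¹' Set.Icc (0 : ℝ) (1 / 2)) ∪ Set.Icc (0 : ℝ) (1 / 2) := by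
    intro a ha
    have ha1 := ha.1
    have ha2 := ha.2
    rcases le_total a 0 with h | h
    · exact Or.inl ⟨by linarith, by linarith⟩
    · exact Or.inr ⟨h, by linarith⟩
  calc ∫⁻ a in Set.Ioc (-(1 / 2) : ℝ) (-(1 / 2) + 1), F |a|
      ≤ ∫⁻ a in (Neg.neg ⁻¹' Set.Icc (0 : ℝ) (1 / 2)) ∪ Set.Icc (0 : ℝ) (1 / 2), F |a| :=
        lintegral_mono_set h2
    _ ≤ (∫⁻ a in (Neg.neg ⁻¹' Set.Icc (0 : ℝ) (1 / 2)), F |a|) +
        ∫⁻ a in Set.Icc (0 : ℝ) (1 / 2), F |a| := lintegral_union_le _ _ _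
    _ = 2 * ∫⁻ t in Set.Icc (0 : ℝ) (1 / 2), F t := by
      rw [two_mul]
      congr 1
      · have h3 : ∫⁻ a in (Neg.neg ⁻¹' Set.Icc (0 : ℝ) (1 / 2)), F |a| =
            ∫⁻ a in (Neg.neg ⁻¹' Set.Icc (0 : ℝ) (1 / 2)), (fun t => F t) (-a) := by
          apply setLIntegral_congr_fun (measurableSet_Icc.preimage measurable_neg)
          intro a ha
          have : 0 ≤ -a := ha.1
          simp only
          rw [abs_of_nonpos (by linarith)]
        rw [h3]
        exact (Measure.measurePreserving_neg (volume : Measure ℝ)).setLIntegral_comp_preimage_emb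
          (MeasurableEquiv.neg ℝ).measurableEmbedding _ _
      · apply setLIntegral_congr_fun measurableSet_Icc
        intro a ha
        simp only
        rw [abs_of_nonneg ha.1]

private theorem normB_X_sq_le (x : UnitAddCircle) (hx : x ≠ 0) :
    X x ^ 2 ≤ 2 + 32 * (2 * ‖x‖) ^ (-(1 / 2) : ℝ) := by
  have hx0 : 0 < ‖x‖ := norm_pos_iff.2 hx
  have hge := norm_one_sub_ge x
  have hle := norm_one_sub_le x
  set v := ‖1 - ec x‖ with hv
  have hv0 : 0 < v := by linarith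
  have h2x : 2 * ‖x‖ ≤ 1 := by linarith
  have hX : X x = Real.log 2 + Real.log (v / 2) := by
    unfold X
    rw [Real.log_div hv0.ne' two_ne_zero, ← hv]
    ring
  have hlog1 : Real.log (v / 2) ≤ 0 := Real.log_nonpos (by linarith) (by linarith)
  have hlog2 : Real.log (2 * ‖x‖) ≤ Real.log (v / 2) :=
    Real.log_le_log (by linarith) (by linarith)
  have hL := Real.abs_log_mul_self_rpow_lt (2 * ‖x‖) (1 / 4) (by linarith) h2x (by norm_num)
  have hw0 : 0 < 2 * ‖x‖ := by linarith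
  set w := 2 * ‖x‖ with hw
  have hlw : Real.log w ≤ 0 := hlog2.trans hlog1
  have hr : 0 < w ^ (1 / 4 : ℝ) := Real.rpow_pos_of_pos hw0 _
  have hsq : (Real.log w * w ^ (1 / 4 : ℝ)) ^ 2 < 16 := by
    have h := sq_lt_sq' (by linarith [abs_nonneg (Real.log w * w ^ (1 / 4 : ℝ))] :
      -(1 / (1 / 4 : ℝ)) < |Real.log w * w ^ (1 / 4 : ℝ)|) hL
    rw [sq_abs] at h
    norm_num at h
    norm_num
    exact h
  have hww : (w ^ (1 / 4 : ℝ)) ^ 2 * w ^ (-(1 / 2) : ℝ) = 1 := by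
    rw [← Real.rpow_natCast, ← Real.rpow_mul hw0.le, ← Real.rpow_add hw0]
    norm_num
  have hr2 : 0 < w ^ (-(1 / 2) : ℝ) := Real.rpow_pos_of_pos hw0 _
  have hlogsq : Real.log w ^ 2 ≤ 16 * w ^ (-(1 / 2) : ℝ) := by
    have : Real.log w ^ 2 = (Real.log w * w ^ (1 / 4 : ℝ)) ^ 2 * w ^ (-(1 / 2) : ℝ) := by
      rw [mul_pow, mul_assoc, hww, mul_one]
    rw [this]
    exact mul_le_mul_of_nonneg_right hsq.le hr2.le
  have hl2 : Real.log 2 < 1 := by
    have := Real.log_two_lt_d9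
    linarith
  have hl2' : 0 < Real.log 2 := Real.log_pos (by norm_num)
  rw [hX]
  have h3 : Real.log (v / 2) ^ 2 ≤ Real.log w ^ 2 := by nlinarith
  nlinarith [sq_nonneg (Real.log 2 - Real.log (v / 2))]

private theorem normB_zero_null : volume ({0} : Set UnitAddCircle) = 0 := by
  have h1 : ({0} : Set UnitAddCircle) ⊆ Metric.closedBall 0 0 := by
    intro x hx
    rw [Set.mem_singleton_iff] at hx
    rw [hx]
    exact Metric.mem_closedBall_self le_rfl
  refine measure_mono_null h1 ?_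
  rw [AddCircle.volume_closedBall]
  rw [mul_zero, min_eq_right zero_le_one, ENNReal.ofReal_zero]

/-- the exceptional set is null -/
theorem ae_nsmul_ne_zero {n : ℕ} (hn : 0 < n) : ∀ᵐ x : UnitAddCircle, n • x ≠ 0 := by
  have h2 : volume ((fun x : UnitAddCircle => n • x) ⁻¹' {0}) = 0 :=
    (measurePreserving_nsmul' hn).quasiMeasurePreserving.preimage_null normB_zero_null
  rw [ae_iff]
  refine measure_mono_null ?_ h2
  intro x hx
  exact not_not.1 hx

theorem X_memLp : MemLp X 2 volume := by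
  rw [memLp_two_iff_integrable_sq measurable_X.aestronglyMeasurable]
  refine ⟨(measurable_X.pow_const 2).aestronglyMeasurable, ?_⟩
  rw [hasFiniteIntegral_iff_ofReal (Eventually.of_forall fun x => sq_nonneg (X x))]
  have hne : ∀ᵐ x : UnitAddCircle, x ≠ 0 := by
    rw [ae_iff]
    refine measure_mono_null ?_ normB_zero_null
    intro x hx
    exact not_not.1 hx
  have h1 : ∫⁻ x : UnitAddCircle, ENNReal.ofReal (X x ^ 2) ≤
      ∫⁻ x : UnitAddCircle, (fun v : ℝ => ENNReal.ofReal (2 + 32 * (2 * v) ^ (-(1 / 2) : ℝ))) ‖x‖ := by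
    apply lintegral_mono_ae
    filter_upwards [hne] with x hx
    exact ENNReal.ofReal_le_ofReal (normB_X_sq_le x hx)
  have h2 := normB_lintegral (fun v : ℝ => ENNReal.ofReal (2 + 32 * (2 * v) ^ (-(1 / 2) : ℝ)))
  refine (h1.trans h2).trans_lt ?_
  refine ENNReal.mul_lt_top (by norm_num) ?_
  have hint : IntegrableOn (fun v : ℝ => 2 + 32 * (2 * v) ^ (-(1 / 2) : ℝ)) (Set.Icc 0 (1 / 2)) := by
    rw [integrableOn_Icc_iff_integrableOn_Ioc]
    have h2 : IntervalIntegrable (fun x : ℝ => x ^ (-(1 / 2) : ℝ)) volume 0 1 :=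
      intervalIntegral.intervalIntegrable_rpow' (by norm_num)
    have h3 : IntervalIntegrable (fun x : ℝ => (2 * x) ^ (-(1 / 2) : ℝ)) volume (0 / 2) (1 / 2) :=
      h2.comp_mul_left (c := 2)
    rw [zero_div] at h3
    have h4 : IntervalIntegrable (fun v : ℝ => 2 + 32 * (2 * v) ^ (-(1 / 2) : ℝ)) volume 0 (1 / 2) :=
      intervalIntegrable_const.add (h3.const_mul 32)
    rw [intervalIntegrable_iff_integrableOn_Ioc_of_le (by norm_num)] at h4
    exact h4
  have h5 := hint.2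
  rw [hasFiniteIntegral_iff_ofReal] at h5
  · exact h5
  · filter_upwards [ae_restrict_mem measurableSet_Icc] with v hv
    have : 0 ≤ (2 * v) ^ (-(1 / 2) : ℝ) := Real.rpow_nonneg (by linarith [hv.1]) _
    simp only [Pi.zero_apply]
    linarith

theorem lintegral_inv_sq {δ : ℝ} (hδ : 0 < δ) :
    ∫⁻ x in {x : UnitAddCircle | δ ≤ ‖x‖}, ENNReal.ofReal (1 / ‖x‖ ^ 2) ≤
      ENNReal.ofReal (2 / δ) := by
  have hm : MeasurableSet {x : UnitAddCircle | δ ≤ ‖x‖} :=
    (isClosed_le continuous_const continuous_norm).measurableSet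
  rw [← lintegral_indicator hm]
  have h1 : ∫⁻ x : UnitAddCircle, ({x : UnitAddCircle | δ ≤ ‖x‖}.indicator
        (fun x => ENNReal.ofReal (1 / ‖x‖ ^ 2))) x =
      ∫⁻ x : UnitAddCircle, ((Set.Ici δ).indicator (fun v : ℝ => ENNReal.ofReal (1 / v ^ 2))) ‖x‖ := by
    apply lintegral_congr
    intro x
    by_cases hx : δ ≤ ‖x‖
    · rw [Set.indicator_of_mem (by exact hx), Set.indicator_of_mem (by exact hx)]
    · rw [Set.indicator_of_notMem (by exact hx), Set.indicator_of_notMem (by exact hx)]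
  rw [h1]
  refine (normB_lintegral _).trans ?_
  have h2 : ∫⁻ t in Set.Icc (0 : ℝ) (1 / 2),
        ((Set.Ici δ).indicator (fun v : ℝ => ENNReal.ofReal (1 / v ^ 2))) t ≤
      ∫⁻ t in Set.Ioi δ, ENNReal.ofReal (1 / t ^ 2) := by
    calc ∫⁻ t in Set.Icc (0 : ℝ) (1 / 2),
        ((Set.Ici δ).indicator (fun v : ℝ => ENNReal.ofReal (1 / v ^ 2))) t
        ≤ ∫⁻ t, ((Set.Ici δ).indicator (fun v : ℝ => ENNReal.ofReal (1 / v ^ 2))) t :=
          setLIntegral_le_lintegral _ _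
      _ = ∫⁻ t in Set.Ici δ, ENNReal.ofReal (1 / t ^ 2) := lintegral_indicator measurableSet_Ici _
      _ = ∫⁻ t in Set.Ioi δ, ENNReal.ofReal (1 / t ^ 2) := by
          exact setLIntegral_congr Ioi_ae_eq_Ici.symm
  have h3 : ∫⁻ t in Set.Ioi δ, ENNReal.ofReal (1 / t ^ 2) = ENNReal.ofReal (1 / δ) := by
    have h4 : ∫⁻ t in Set.Ioi δ, ENNReal.ofReal (1 / t ^ 2) =
        ∫⁻ t in Set.Ioi δ, ENNReal.ofReal (t ^ (-2 : ℝ)) := by
      apply setLIntegral_congr_fun measurableSet_Ioi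
      intro t ht
      have ht0 : 0 < t := hδ.trans ht
      simp only
      congr 1
      rw [Real.rpow_neg ht0.le, one_div]
      congr 1
      exact_mod_cast (Real.rpow_natCast t 2).symm
    rw [h4, ← ofReal_integral_eq_lintegral_ofReal
      (integrableOn_Ioi_rpow_of_lt (by norm_num) hδ)]
    · rw [integral_Ioi_rpow_of_lt (by norm_num) hδ]
      congr 1
      have : (-2 : ℝ) + 1 = -1 := by norm_num
      rw [this, Real.rpow_neg_one]
      field_simp
    · filter_upwards [ae_restrict_mem measurableSet_Ioi] with t ht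
      exact Real.rpow_nonneg (hδ.trans ht).le _
  calc 2 * ∫⁻ t in Set.Icc (0 : ℝ) (1 / 2),
        ((Set.Ici δ).indicator (fun v : ℝ => ENNReal.ofReal (1 / v ^ 2))) t
      ≤ 2 * ENNReal.ofReal (1 / δ) := by
        rw [← h3]
        gcongr
    _ = ENNReal.ofReal (2 / δ) := by
        have : (2 : ENNReal) = ENNReal.ofReal 2 := by norm_num
        rw [this, ← ENNReal.ofReal_mul (by norm_num)]
        congr 1
        ring

theorem volume_norm_lt (δ : ℝ) :
    volume {x : UnitAddCircle | ‖x‖ < δ} ≤ ENNReal.ofReal (2 * δ) := by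
  have h1 : {x : UnitAddCircle | ‖x‖ < δ} ⊆ Metric.closedBall 0 δ := by
    intro x hx
    rw [mem_closedBall_zero_iff]
    exact le_of_lt hx
  refine (measure_mono h1).trans ?_
  rw [AddCircle.volume_closedBall]
  exact ENNReal.ofReal_le_ofReal (min_le_right _ _)

end Pool.Agent.Konyagin
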