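import Pool.Agent.Lib.MP_9faca0_an.LogSer

/-!
# JOB PARAMS: the moduli

`q i = 1 + (i + 1) * t! * A` for `i < t` are pairwise coprime and larger than `A`. If
`u ≠ v < N ≤ A ^ τ` then the product of the `q i` dividing `|u - v|` is at most `|u - v| < A ^ τ`,
so at most `τ` of them divide (`t = 2 τ`). `u % q = v % q` iff `q ∣ |u - v|`.
-/

set_option autoImplicit false

namespace Pool.Agent.Konyagin

/-- The moduli. -/
def qq (t A i : ℕ) : ℕ := 1 + (i + 1) * t.factorial * A

theorem qq_pos (t A i : ℕ) : 0 < qq t A i := by unfold qq; omega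

theorem qq_le {t A i : ℕ} (hA : 1 ≤ A) (hi : i < t) : qq t A i ≤ (1 + t * t.factorial) * A := by
  unfold qq
  have h1 : (i + 1) * t.factorial * A ≤ t * t.factorial * A :=
    Nat.mul_le_mul_right _ (Nat.mul_le_mul_right _ hi)
  calc 1 + (i + 1) * t.factorial * A ≤ A + t * t.factorial * A := Nat.add_le_add hA h1
    _ = (1 + t * t.factorial) * A := by ring

private theorem params_coprime_lt {t A i j : ℕ} (hj : j < t) (hij : i < j) :
    Nat.Coprime (qq t A i) (qq t A j) := by
  apply Nat.Coprime.symm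
  rw [Nat.coprime_iff_gcd_eq_one]
  by_contra hne
  obtain ⟨p, hp, hpd⟩ := Nat.exists_prime_and_dvd hne
  have hpj : p ∣ qq t A j := dvd_trans hpd (Nat.gcd_dvd_left _ _)
  have hpi : p ∣ qq t A i := dvd_trans hpd (Nat.gcd_dvd_right _ _)
  have hdiff : qq t A j = qq t A i + (j - i) * t.factorial * A := by
    unfold qq
    obtain ⟨k, rfl⟩ := Nat.exists_eq_add_of_lt hij
    have : i + k + 1 - i = k + 1 := by omega
    rw [this]
    ring
  have h3 : p ∣ (j - i) * t.factorial * A := by
    rw [hdiff] at hpj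
    exact (Nat.dvd_add_right hpi).mp hpj
  have hji : (j - i) ∣ t.factorial := Nat.dvd_factorial (by omega) (by omega)
  have h4 : p ∣ t.factorial * A := by
    rcases (Nat.Prime.dvd_mul hp).mp h3 with h | h
    · rcases (Nat.Prime.dvd_mul hp).mp h with h | h
      · exact Dvd.dvd.mul_right (dvd_trans h hji) A
      · exact Dvd.dvd.mul_right h A
    · exact Dvd.dvd.mul_left h _
  have h5 : p ∣ (i + 1) * t.factorial * A := by
    rw [mul_assoc]
    exact Dvd.dvd.mul_left h4 _
  have h6 : p ∣ 1 := by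
    unfold qq at hpi
    exact (Nat.dvd_add_left h5).mp hpi
  exact hp.one_lt.ne' (Nat.dvd_one.mp h6)

private theorem params_coprime {t A i j : ℕ} (hi : i < t) (hj : j < t) (hij : i ≠ j) :
    Nat.Coprime (qq t A i) (qq t A j) := by
  rcases Nat.lt_or_gt_of_ne hij with h | h
  · exact params_coprime_lt hj h
  · exact (params_coprime_lt hi h).symm

private theorem params_lt_qq (t A i : ℕ) : A < qq t A i := by
  unfold qq
  have h1 : 1 ≤ (i + 1) * t.factorial :=
    Nat.one_le_iff_ne_zero.mpr (Nat.mul_ne_zero (by omega) (Nat.factorial_ne_zero t))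
  have h2 : A ≤ (i + 1) * t.factorial * A := Nat.le_mul_of_pos_left A h1
  omega

private theorem params_dvd_dd {q u v : ℕ} (h : u % q = v % q) : q ∣ dd u v := by
  unfold dd
  have h' : u ≡ v [MOD q] := h
  rcases le_total u v with huv | huv
  · have h0 : u - v = 0 := Nat.sub_eq_zero_of_le huv
    rw [h0, zero_add]
    exact (Nat.modEq_iff_dvd' huv).mp h'
  · have h0 : v - u = 0 := Nat.sub_eq_zero_of_le huv
    rw [h0, add_zero]
    exact (Nat.modEq_iff_dvd' huv).mp h'.symm

theorem om_qq_le {τ A N : ℕ} (hA : 1 ≤ A) (hN : N ≤ A ^ τ) {u v : ℕ} (hu : u < N) (hv : v < N)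
    (huv : u ≠ v) : 2 * om (2 * τ) (qq (2 * τ) A) u v ≤ 2 * τ := by
  by_contra hcon
  push Not at hcon
  unfold om at hcon
  set S := (Finset.range (2 * τ)).filter
    fun i => u % qq (2 * τ) A i = v % qq (2 * τ) A i with hS
  have hcard : τ ≤ S.card := by omega
  have hprod : (∏ i ∈ S, qq (2 * τ) A i) ∣ dd u v := by
    apply Finset.prod_dvd_of_isRelPrime
    · intro i hi j hj hij
      have hi' := Finset.mem_range.mp (Finset.mem_filter.mp (Finset.mem_coe.mp hi)).1
      have hj' := Finset.mem_range.mp (Finset.mem_filter.mp (Finset.mem_coe.mp hj)).1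
      exact Nat.coprime_iff_isRelPrime.mp (params_coprime hi' hj' hij)
    · intro i hi
      exact params_dvd_dd (Finset.mem_filter.mp hi).2
  have hpos : 0 < dd u v := by unfold dd; omega
  have hlt : dd u v < N := by unfold dd; omega
  have h1 : A ^ S.card ≤ ∏ i ∈ S, qq (2 * τ) A i := by
    rw [← Finset.prod_const]
    exact Finset.prod_le_prod' fun i _ => (params_lt_qq _ A i).le
  have h2 : A ^ τ ≤ A ^ S.card := Nat.pow_le_pow_right hA hcard
  have h3 := Nat.le_of_dvd hpos hprod
  omega

end Pool.Agent.Konyagin
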