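import Pool.Agent.Lib.MP_9faca0_an.NormB

/-!
# JOB STEPA: the inductive construction

* `avg_X`: `∏_{c < m} (1 - w ζ^c) = 1 - w^m` for a primitive `m`-th root of unity `ζ`, applied to
  `w = ec (b • x)`, `ζ = ec (b • (1/m))`, a primitive root because `b` is prime to `m`.
  Take logarithms; all factors are nonzero when `m • (b • x) ≠ 0`, which holds a.e.
* `cross_bound`: by translation invariance (`integral_add_right_eq_self`), for every `c`
  `∫ Z (m • x) X (b • x) = ∫ Z (m • x) X (b • (x + c/m))` (as `m • (c/m) = 0`). Sum over `c < m`,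
  use `avg_X`, then `|2 u v| ≤ u^2 + v^2` and `measurePreserving_nsmul'`.
* `step_one`: with `b = k * M`, `m` coprime to `b`, `M' = m * M`,
  `K' = {m u + b j : u ∈ K, j < m}` and `Z' x = Z (m • x) + X (b • x)`.
  The map `(u, j) ↦ m u + b j` is injective (reduce mod `m`), so
  `ES K' x = ES K (m • x) * ∑_{j<m} (ec x ^ b)^j` and `(∑_{j<m} w^j) (1 - w) = 1 - w^m`.
  `∫ Z'^2 ≤ ∫ Z^2 + ∫ X^2 + (1/m) (∫ Z^2 + ∫ X^2)`.
* `stepA`: induction on the multiset; `m` is chosen as `1 + b * c` with `c` large.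
-/

set_option autoImplicit false

open MeasureTheory Complex Filter Topology

namespace Pool.Agent.Konyagin

private theorem stepA_prod {m : ℕ} (hm : 0 < m) {ζ : ℂ} (hζ : IsPrimitiveRoot ζ m) (w : ℂ) :
    ∏ c ∈ Finset.range m, (1 - w * ζ ^ c) = 1 - w ^ m := by
  classical
  have h1 := hζ.pow_sub_pow_eq_prod_sub_mul (1 : ℂ) w hm
  rw [one_pow] at h1
  rw [h1]
  have h2 : Polynomial.nthRootsFinset m (1 : ℂ) = (Finset.range m).image fun c => ζ ^ c := by
    symm
    refine Finset.eq_of_subset_of_card_le ?_ ?_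
    · intro z hz
      obtain ⟨c, -, rfl⟩ := Finset.mem_image.1 hz
      rw [Polynomial.mem_nthRootsFinset hm, ← pow_mul, mul_comm, pow_mul, hζ.pow_eq_one, one_pow]
    · rw [hζ.card_nthRootsFinset, Finset.card_image_of_injOn hζ.injOn_pow, Finset.card_range]
  rw [h2, Finset.prod_image (fun a ha b hb h => hζ.injOn_pow ha hb h)]
  exact Finset.prod_congr rfl fun c _ => by rw [mul_comm]

private theorem stepA_coe {m : ℕ} (hm : 0 < m) (b c : ℕ) :
    ec (b • (((c : ℝ) / (m : ℝ) : ℝ) : UnitAddCircle)) =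
      Complex.exp (2 * Real.pi * I * (b / m)) ^ c := by
  rw [ec_nsmul, ec_coe, ← Complex.exp_nat_mul, ← Complex.exp_nat_mul]
  congr 1
  have : (m : ℂ) ≠ 0 := by exact_mod_cast hm.ne'
  push_cast
  field_simp

theorem avg_X {m b : ℕ} (hm : 0 < m) (hb : 0 < b) (hmb : Nat.Coprime b m) :
    ∀ᵐ x : UnitAddCircle,
      ∑ c ∈ Finset.range m, X (b • (x + (((c : ℝ) / (m : ℝ) : ℝ) : UnitAddCircle))) =
        X (m • (b • x)) := by
  have hζ := Complex.isPrimitiveRoot_exp_of_coprime b m hm.ne' hmb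
  filter_upwards [ae_nsmul_ne_zero (Nat.mul_pos hm hb)] with x hx
  have hx' : m • (b • x) ≠ 0 := by rwa [smul_smul]
  have hprod := stepA_prod hm hζ (ec (b • x))
  have hne : 1 - ec (b • x) ^ m ≠ 0 := by
    rw [← ec_nsmul]
    intro e
    exact hx' ((ec_eq_one_iff _).1 (sub_eq_zero.1 e).symm)
  have hfac : ∀ c ∈ Finset.range m,
      1 - ec (b • x) * Complex.exp (2 * Real.pi * I * (b / m)) ^ c ≠ 0 := by
    intro c hc e
    rw [← hprod] at hne
    exact hne (Finset.prod_eq_zero hc e)
  have h1 : ∀ c ∈ Finset.range m, X (b • (x + (((c : ℝ) / (m : ℝ) : ℝ) : UnitAddCircle))) =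
      Real.log ‖1 - ec (b • x) * Complex.exp (2 * Real.pi * I * (b / m)) ^ c‖ := by
    intro c _
    rw [X, smul_add, ec_add, stepA_coe hm]
  rw [Finset.sum_congr rfl h1, ← Real.log_prod fun c hc => norm_ne_zero_iff.2 (hfac c hc),
    ← norm_prod, hprod, X, ec_nsmul m (b • x)]

private theorem stepA_integral_comp {n : ℕ} (hn : 0 < n) {f : UnitAddCircle → ℝ}
    (hf : AEStronglyMeasurable f volume) : ∫ x, f (n • x) = ∫ x, f x := by
  have h := measurePreserving_nsmul' hn
  have h1 := integral_map (μ := (volume : Measure UnitAddCircle)) h.measurable.aemeasurable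
    (f := f) (by rw [h.map_eq]; exact hf)
  rw [h.map_eq] at h1
  exact h1.symm

private theorem stepA_memLp {n : ℕ} (hn : 0 < n) {f : UnitAddCircle → ℝ}
    (hf : MemLp f 2 volume) : MemLp (fun x => f (n • x)) 2 volume :=
  hf.comp_measurePreserving (measurePreserving_nsmul' hn)

private theorem stepA_memLp_add (a : UnitAddCircle) {f : UnitAddCircle → ℝ}
    (hf : MemLp f 2 volume) : MemLp (fun x => f (x + a)) 2 volume :=
  hf.comp_measurePreserving (measurePreserving_add_right volume a)

private theorem stepA_zero {m : ℕ} (hm : 0 < m) (c : ℕ) :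
    m • (((c : ℝ) / (m : ℝ) : ℝ) : UnitAddCircle) = 0 := by
  have hm0 : (m : ℝ) ≠ 0 := by exact_mod_cast hm.ne'
  have h1 : m • (((c : ℝ) / (m : ℝ) : ℝ) : UnitAddCircle) =
      ((m • ((c : ℝ) / (m : ℝ)) : ℝ) : UnitAddCircle) := (AddCircle.coe_nsmul 1).symm
  have h2 : (m • ((c : ℝ) / (m : ℝ)) : ℝ) = c • (1 : ℝ) := by
    rw [nsmul_eq_mul, nsmul_eq_mul, mul_div_cancel₀ _ hm0, mul_one]
  rw [h1, h2, AddCircle.coe_nsmul, AddCircle.coe_period, smul_zero]

private theorem stepA_shift {m : ℕ} (hm : 0 < m) (b c : ℕ) (Z : UnitAddCircle → ℝ) :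
    ∫ x : UnitAddCircle,
      Z (m • x) * X (b • (x + (((c : ℝ) / (m : ℝ) : ℝ) : UnitAddCircle))) =
        ∫ x : UnitAddCircle, Z (m • x) * X (b • x) := by
  have h1 := integral_add_right_eq_self (μ := (volume : Measure UnitAddCircle))
    (fun x : UnitAddCircle => Z (m • x) * X (b • x))
    (((c : ℝ) / (m : ℝ) : ℝ) : UnitAddCircle)
  rw [← h1]
  refine integral_congr_ae (Filter.Eventually.of_forall fun x => ?_)
  have h0 := stepA_zero hm c
  simp only [smul_add, h0, add_zero]

theorem cross_bound {m b : ℕ} (hm : 0 < m) (hb : 0 < b) (hmb : Nat.Coprime b m)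
    {Z : UnitAddCircle → ℝ} (hZ : MemLp Z 2 volume) :
    2 * ∫ x : UnitAddCircle, Z (m • x) * X (b • x) ≤
      (1 / (m : ℝ)) * ((∫ x, Z x ^ 2) + ∫ x, X x ^ 2) := by
  have hm0 : (0 : ℝ) < m := by exact_mod_cast hm
  have hXb := stepA_memLp hb X_memLp
  have hZm := stepA_memLp hm hZ
  have hint : ∀ c : ℕ, Integrable (fun x : UnitAddCircle =>
      Z (m • x) * X (b • (x + (((c : ℝ) / (m : ℝ) : ℝ) : UnitAddCircle)))) volume := by
    intro c
    have h1 := stepA_memLp_add (((c : ℝ) / (m : ℝ) : ℝ) : UnitAddCircle)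
      (f := fun x => X (b • x)) hXb
    exact hZm.integrable_mul h1
  have hc : ∀ c : ℕ, ∫ x : UnitAddCircle,
      Z (m • x) * X (b • (x + (((c : ℝ) / (m : ℝ) : ℝ) : UnitAddCircle))) =
        ∫ x : UnitAddCircle, Z (m • x) * X (b • x) := fun c => stepA_shift hm b c Z
  have hsum : (m : ℝ) * ∫ x : UnitAddCircle, Z (m • x) * X (b • x) =
      ∫ x : UnitAddCircle, Z (m • x) * X (m • (b • x)) := by
    have h1 : (m : ℝ) * ∫ x : UnitAddCircle, Z (m • x) * X (b • x) =
        ∑ c ∈ Finset.range m, ∫ x : UnitAddCircle,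
          Z (m • x) * X (b • (x + (((c : ℝ) / (m : ℝ) : ℝ) : UnitAddCircle))) := by
      rw [Finset.sum_congr rfl fun c _ => hc c, Finset.sum_const, Finset.card_range, nsmul_eq_mul]
    rw [h1, ← integral_finsetSum _ fun c _ => hint c]
    refine integral_congr_ae ?_
    filter_upwards [avg_X hm hb hmb] with x hx
    rw [← Finset.mul_sum, hx]
  have hXmb : MemLp (fun x : UnitAddCircle => X (m • (b • x))) 2 volume :=
    stepA_memLp hb (f := fun x => X (m • x)) (stepA_memLp hm X_memLp)
  have hle : 2 * ∫ x : UnitAddCircle, Z (m • x) * X (m • (b • x)) ≤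
      (∫ x, Z x ^ 2) + ∫ x, X x ^ 2 := by
    have e1 : ∫ x : UnitAddCircle, Z (m • x) ^ 2 = ∫ x, Z x ^ 2 :=
      stepA_integral_comp hm (f := fun x => Z x ^ 2) (hZ.integrable_sq.aestronglyMeasurable)
    have e2 : ∫ x : UnitAddCircle, X (m • (b • x)) ^ 2 = ∫ x, X x ^ 2 :=
      (stepA_integral_comp hb (f := fun x => X (m • x) ^ 2)
        ((stepA_memLp hm X_memLp).integrable_sq.aestronglyMeasurable)).trans
      (stepA_integral_comp hm (f := fun x => X x ^ 2)
        (X_memLp.integrable_sq.aestronglyMeasurable))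
    have i1 : Integrable (fun x : UnitAddCircle => Z (m • x) ^ 2) volume := hZm.integrable_sq
    have i2 : Integrable (fun x : UnitAddCircle => X (m • (b • x)) ^ 2) volume :=
      hXmb.integrable_sq
    have i3 : Integrable (fun x : UnitAddCircle => 2 * (Z (m • x) * X (m • (b • x)))) volume :=
      (hZm.integrable_mul hXmb).const_mul 2
    have h4 : ∫ x : UnitAddCircle, 2 * (Z (m • x) * X (m • (b • x))) ≤
        ∫ x : UnitAddCircle, (Z (m • x) ^ 2 + X (m • (b • x)) ^ 2) := by
      refine integral_mono i3 (i1.add i2) fun x => ?_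
      have := sq_nonneg (Z (m • x) - X (m • (b • x)))
      simp only
      nlinarith
    rw [integral_const_mul, integral_add i1 i2, e1, e2] at h4
    exact h4
  rw [← hsum] at hle
  rw [one_div, inv_mul_eq_div, le_div_iff₀ hm0]
  linarith

private theorem stepA_ES (K : Finset ℕ) {m b : ℕ} (hm : 0 < m) (hmb : Nat.Coprime b m)
    (x : UnitAddCircle) :
    ES ((K ×ˢ Finset.range m).image fun p => m * p.1 + b * p.2) x =
      ES K (m • x) * ∑ j ∈ Finset.range m, (ec x ^ b) ^ j := by
  classical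
  unfold ES
  rw [Finset.sum_image, Finset.sum_mul_sum, Finset.sum_product]
  · refine Finset.sum_congr rfl fun u _ => Finset.sum_congr rfl fun j _ => ?_
    rw [ec_nsmul, pow_add, pow_mul, pow_mul]
  · rintro ⟨u, j⟩ hp ⟨u', j'⟩ hp' (e : m * u + b * j = m * u' + b * j')
    have hj : j < m := Finset.mem_range.1 (Finset.mem_product.1 hp).2
    have hj' : j' < m := Finset.mem_range.1 (Finset.mem_product.1 hp').2
    have h1 : b * j ≡ b * j' [MOD m] := by
      have h2 : m * u + b * j ≡ m * u' + b * j' [MOD m] := by rw [e]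
      have h3 : b * j ≡ m * u + b * j [MOD m] := by
        simp [Nat.ModEq]
      have h4 : b * j' ≡ m * u' + b * j' [MOD m] := by
        simp [Nat.ModEq]
      exact h3.trans (h2.trans h4.symm)
    have h5 : j ≡ j' [MOD m] := Nat.ModEq.cancel_left_of_coprime hmb.symm h1
    have h6 : j = j' := Nat.ModEq.eq_of_lt_of_lt h5 hj hj'
    subst h6
    have h7 : u = u' := Nat.eq_of_mul_eq_mul_left hm (Nat.add_right_cancel e)
    rw [h7]

theorem stepA (s : Multiset ℕ) (hs : ∀ k ∈ s, 0 < k) {ε : ℝ} (hε : 0 < ε) :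
    ∃ (M : ℕ) (K : Finset ℕ) (Z : UnitAddCircle → ℝ), 0 < M ∧ K.Nonempty ∧ MemLp Z 2 volume ∧
      ∫ x, Z x ^ 2 ≤ (∫ x, X x ^ 2) * (Multiset.card s + ε) ∧
      ∀ᵐ x : UnitAddCircle, ‖ES K x‖ * Real.exp (Z x) =
        (s.map fun k => ‖1 - ec x ^ (k * M)‖).prod := by
  classical
  have hC : 0 ≤ ∫ x, X x ^ 2 := integral_nonneg fun x => sq_nonneg _
  induction s using Multiset.induction_on generalizing ε with
  | empty =>
    refine ⟨1, {0}, fun _ => 0, one_pos, Finset.singleton_nonempty 0, MemLp.zero', ?_, ?_⟩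
    · simp only [ne_eq, OfNat.ofNat_ne_zero, not_false_eq_true, zero_pow, integral_zero,
        Multiset.card_zero, Nat.cast_zero, zero_add]
      positivity
    · filter_upwards with x
      simp [ES]
  | cons k s ih =>
    obtain ⟨M, K, Z, hM, hK, hZ, hZ2, hae⟩ :=
      ih (fun k hk => hs k (Multiset.mem_cons_of_mem hk)) (half_pos hε)
    have hk : 0 < k := hs k (Multiset.mem_cons_self k s)
    set b := k * M with hbdef
    have hb : 0 < b := Nat.mul_pos hk hM
    set A : ℝ := (Multiset.card s + ε / 2 + 1) * (2 / ε) with hA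
    obtain ⟨c, hcA⟩ := exists_nat_ge A
    set m := 1 + b * c with hmdef
    have hm : 0 < m := by omega
    have hmb : Nat.Coprime b m := by
      rw [hmdef]
      simp
    have hmA : A ≤ m := by
      refine hcA.trans ?_
      rw [hmdef]
      push_cast
      have hb1 : (1 : ℝ) ≤ b := by exact_mod_cast hb
      have hc0 : (0 : ℝ) ≤ c := Nat.cast_nonneg c
      nlinarith
    have hm0 : (0 : ℝ) < m := by exact_mod_cast hm
    have hZm := stepA_memLp hm hZ
    have hXb := stepA_memLp hb X_memLp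
    refine ⟨m * M, (K ×ˢ Finset.range m).image fun p => m * p.1 + b * p.2,
      fun x => Z (m • x) + X (b • x), Nat.mul_pos hm hM, ?_, hZm.add hXb, ?_, ?_⟩
    · exact (hK.product ⟨0, Finset.mem_range.2 hm⟩).image _
    · have h1 : ∫ x : UnitAddCircle, (Z (m • x) + X (b • x)) ^ 2 =
          (∫ x, Z x ^ 2) + 2 * (∫ x : UnitAddCircle, Z (m • x) * X (b • x)) + ∫ x, X x ^ 2 := by
        have e1 : ∫ x : UnitAddCircle, Z (m • x) ^ 2 = ∫ x, Z x ^ 2 :=
          stepA_integral_comp hm (f := fun x => Z x ^ 2) (hZ.integrable_sq.aestronglyMeasurable)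
        have e2 : ∫ x : UnitAddCircle, X (b • x) ^ 2 = ∫ x, X x ^ 2 :=
          stepA_integral_comp hb (f := fun x => X x ^ 2)
            (X_memLp.integrable_sq.aestronglyMeasurable)
        have i3 : Integrable (fun x : UnitAddCircle => 2 * (Z (m • x) * X (b • x))) volume :=
          (hZm.integrable_mul hXb).const_mul 2
        have i1 : Integrable (fun x : UnitAddCircle => Z (m • x) ^ 2) volume :=
          hZm.integrable_sq
        have i2 : Integrable (fun x : UnitAddCircle => X (b • x) ^ 2) volume :=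
          hXb.integrable_sq
        have i4 : Integrable (fun x : UnitAddCircle => Z (m • x) ^ 2 +
          2 * (Z (m • x) * X (b • x))) volume := i1.add i3
        have e0 : ∫ x : UnitAddCircle, (Z (m • x) + X (b • x)) ^ 2 =
            ∫ x : UnitAddCircle, (Z (m • x) ^ 2 + 2 * (Z (m • x) * X (b • x)) +
              X (b • x) ^ 2) := by
          refine integral_congr_ae (Filter.Eventually.of_forall fun x => ?_)
          simp only
          ring
        rw [e0, integral_add i4 i2, integral_add i1 i3, integral_const_mul, e1, e2]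
      rw [h1]
      have h2 := cross_bound hm hb hmb hZ
      have h3 : (1 / (m : ℝ)) * ((∫ x, Z x ^ 2) + ∫ x, X x ^ 2) ≤ (∫ x, X x ^ 2) * (ε / 2) := by
        rw [one_div, inv_mul_eq_div, div_le_iff₀ hm0]
        have h4 : (Multiset.card s + ε / 2 + 1) ≤ ε / 2 * m := by
          have h5 : (Multiset.card s + ε / 2 + 1) = ε / 2 * A := by
            rw [hA]
            field_simp
          rw [h5]
          exact mul_le_mul_of_nonneg_left hmA (by positivity)
        calc (∫ x, Z x ^ 2) + ∫ x, X x ^ 2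
            ≤ (∫ x, X x ^ 2) * (Multiset.card s + ε / 2) + ∫ x, X x ^ 2 := by linarith
          _ = (∫ x, X x ^ 2) * (Multiset.card s + ε / 2 + 1) := by ring
          _ ≤ (∫ x, X x ^ 2) * (ε / 2 * m) := mul_le_mul_of_nonneg_left h4 hC
          _ = (∫ x, X x ^ 2) * (ε / 2) * m := by ring
      rw [Multiset.card_cons]
      push_cast
      nlinarith
    · have hae' := (measurePreserving_nsmul' hm).quasiMeasurePreserving.ae hae
      filter_upwards [hae', ae_nsmul_ne_zero hb] with x hx hxb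
      have hw : ec x ^ b ≠ 1 := by
        rw [← ec_nsmul]
        exact fun e => hxb ((ec_eq_one_iff _).1 e)
      have hexp : Real.exp (X (b • x)) = ‖1 - ec x ^ b‖ := by
        rw [X, ec_nsmul, Real.exp_log]
        exact norm_pos_iff.2 (sub_ne_zero.2 (Ne.symm hw))
      have hgeom : ‖∑ j ∈ Finset.range m, (ec x ^ b) ^ j‖ * ‖1 - ec x ^ b‖ =
          ‖1 - ec x ^ (k * (m * M))‖ := by
        rw [← norm_mul, geom_sum_mul_neg, ← pow_mul,
          show b * m = k * (m * M) by rw [hbdef]; ring]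
      rw [stepA_ES K hm hmb, norm_mul, Real.exp_add, hexp, Multiset.map_cons, Multiset.prod_cons,
        ← hgeom]
      have hmap : (s.map fun k => ‖1 - ec x ^ (k * (m * M))‖) =
          s.map fun k => ‖1 - ec (m • x) ^ (k * M)‖ := by
        refine Multiset.map_congr rfl fun k _ => ?_
        rw [ec_nsmul, ← pow_mul, show m * (k * M) = k * (m * M) by ring]
      rw [hmap, ← hx]
      ring

end Pool.Agent.Konyagin
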