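import Pool.Agent.Lib.MP_9faca0_an.TBound
import Pool.Agent.Lib.MP_9faca0_an.Params

/-!
# Products of `1 - z^k` which are small on most of the circle

Given `η`, take `τ ≥ 64/η`, `t = 2τ`, `C = 1 + t * t!`, `A` large, `N = A^τ`, `J = A^(τ-2)`,
`δ = η / (8 t J)`, threshold `c = (t N / 4) log N`.
-/

set_option autoImplicit false

open MeasureTheory Complex Filter Topology

namespace Pool.Agent.Konyagin

private lemma stepB_exists_A (a b : ℝ) : ∃ A : ℕ, 3 ≤ A ∧ a * (1 + b * Real.log A) ≤ A := by
  have h1 : (fun x : ℝ => a * (1 + b * Real.log x)) =o[atTop] fun x : ℝ => x := by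
    have h2 : (fun x : ℝ => a + (a * b) * Real.log x) =o[atTop] fun x : ℝ => x := by
      apply Asymptotics.IsLittleO.add
      · exact (Asymptotics.isLittleO_const_id_atTop a)
      · exact (Real.isLittleO_log_id_atTop).const_mul_left (a * b)
    refine h2.congr_left fun x => by ring
  have h3 := (h1.bound (show (0 : ℝ) < 1 by norm_num))
  have h4 : ∀ᶠ A : ℕ in atTop, ‖a * (1 + b * Real.log A)‖ ≤ 1 * ‖(A : ℝ)‖ :=
    tendsto_natCast_atTop_atTop.eventually h3
  obtain ⟨A, hA, hA3⟩ := (h4.and (eventually_ge_atTop 3)).exists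
  refine ⟨A, hA3, ?_⟩
  calc a * (1 + b * Real.log A) ≤ ‖a * (1 + b * Real.log A)‖ := Real.le_norm_self _
    _ ≤ 1 * ‖(A : ℝ)‖ := hA
    _ = A := by simp

/-- The pairs. -/
private def stepB_P (N : ℕ) : Finset (ℕ × ℕ) :=
  (Finset.range N ×ˢ Finset.range N).filter (fun p => p.1 ≠ p.2)

/-- The multiset of exponents. -/
private def stepB_s (t : ℕ) (q : ℕ → ℕ) (N : ℕ) : Multiset ℕ :=
  ∑ p ∈ stepB_P N, Multiset.replicate (t - 2 * om t q p.1 p.2) (dd p.1 p.2)

private lemma stepB_pos (t : ℕ) (q : ℕ → ℕ) (N : ℕ) : ∀ k ∈ stepB_s t q N, 0 < k := by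
  intro k hk
  unfold stepB_s at hk
  rw [Multiset.mem_sum] at hk
  obtain ⟨p, hp, hk⟩ := hk
  have h1 := Multiset.eq_of_mem_replicate hk
  unfold stepB_P at hp
  rw [Finset.mem_filter] at hp
  subst h1
  unfold dd
  have := hp.2
  omega

private lemma stepB_prod (t : ℕ) (q : ℕ → ℕ) (N : ℕ) (f : ℕ → ℝ) :
    ((stepB_s t q N).map f).prod =
      ∏ p ∈ (Finset.range N ×ˢ Finset.range N).filter (fun p => p.1 ≠ p.2),
        f (dd p.1 p.2) ^ (t - 2 * om t q p.1 p.2) := by
  have h1 : (stepB_s t q N).map f =
      ∑ p ∈ stepB_P N, (Multiset.replicate (t - 2 * om t q p.1 p.2) (dd p.1 p.2)).map f := by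
    unfold stepB_s
    exact map_sum (Multiset.mapAddMonoidHom f) _ _
  rw [h1, Multiset.prod_sum]
  unfold stepB_P
  refine Finset.prod_congr rfl fun p _ => ?_
  rw [Multiset.map_replicate, Multiset.prod_replicate]

theorem stepB {η : ℝ} (hη : 0 < η) :
    ∃ s : Multiset ℕ, (∀ k ∈ s, 0 < k) ∧
      volume {x : UnitAddCircle | Real.exp (-1) < (s.map fun k => ‖1 - ec x ^ k‖).prod} ≤
        ENNReal.ofReal η := by
  obtain ⟨τ, hτ⟩ := exists_nat_ge (64 / η + 4)
  have hτ4 : (4 : ℝ) ≤ τ := le_trans (by have : 0 < 64 / η := by positivity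
                                         linarith) hτ
  have hτη : 64 / η ≤ τ := by linarith
  have hτ4' : 4 ≤ τ := by exact_mod_cast hτ4
  set t : ℕ := 2 * τ with ht
  have ht0 : (0 : ℝ) < t := by rw [ht]; push_cast; linarith
  set C : ℝ := 1 + t * t.factorial with hC
  have hC1 : 1 ≤ C := by rw [hC]; have : (0 : ℝ) ≤ t * t.factorial := by positivity
                         linarith
  obtain ⟨A, hA3, hA⟩ := stepB_exists_A (4 * t * C / η) τ
  have hA0 : (0 : ℝ) < A := by positivity
  have hA1 : 1 ≤ A := by omega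
  have hlogA : 1 ≤ Real.log A := by
    rw [Real.le_log_iff_exp_le hA0]
    have h1 := Real.exp_one_lt_d9
    have h2 : (3 : ℝ) ≤ A := by exact_mod_cast hA3
    linarith
  set N : ℕ := A ^ τ with hN
  set J : ℕ := A ^ (τ - 2) with hJ
  have hNr : (N : ℝ) = (A : ℝ) ^ τ := by rw [hN]; push_cast; ring
  have hJr : (J : ℝ) = (A : ℝ) ^ (τ - 2) := by rw [hJ]; push_cast; ring
  have hN0 : (0 : ℝ) < N := by rw [hNr]; positivity
  have hJ0 : (0 : ℝ) < J := by rw [hJr]; positivity
  have hlogN : Real.log N = τ * Real.log A := by rw [hNr, Real.log_pow]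
  have hlogJ : Real.log J = (τ - 2) * Real.log A := by
    rw [hJr, Real.log_pow]
    push_cast [Nat.cast_sub (show 2 ≤ τ by omega)]
    ring
  have hN2 : 2 ≤ N := by
    calc 2 ≤ A := by omega
      _ = A ^ 1 := (pow_one A).symm
      _ ≤ A ^ τ := Nat.pow_le_pow_right (by omega) (by omega)
  have hJ1 : 1 ≤ J := Nat.one_le_pow _ _ (by omega)
  have hJN : J ≤ N := Nat.pow_le_pow_right (by omega) (by omega)
  set δ : ℝ := η / (8 * t * J) with hδ
  have hδ0 : 0 < δ := by positivity
  set q : ℕ → ℕ := qq t A with hq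
  have hq0 : ∀ i, 0 < q i := fun i => qq_pos t A i
  set c : ℝ := (t : ℝ) * N / 4 * Real.log N with hc
  have hc0 : 0 < c := by
    rw [hc, hlogN]; positivity
  set G : Set UnitAddCircle := ⋂ i ∈ Finset.range t, GG (q i) J δ with hG
  have hGm : MeasurableSet G :=
    Finset.measurableSet_biInter _ fun i _ => measurableSet_GG _ _ _
  set T : UnitAddCircle → ENNReal :=
    fun x => ∑ i ∈ Finset.range t, TT (1 - 1 / (N : ℝ)) (q i) N x with hT
  have hTm : Measurable T := by
    rw [hT]
    exact Finset.measurable_sum _ fun i _ => measurable_TT _ _ _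
  refine ⟨stepB_s t q N, stepB_pos t q N, ?_⟩
  -- the complement of the good set
  have h1 : volume Gᶜ ≤ ENNReal.ofReal (η / 4) := by
    rw [hG, Set.compl_iInter₂]
    calc volume (⋃ i ∈ Finset.range t, (GG (q i) J δ)ᶜ)
        ≤ ∑ i ∈ Finset.range t, volume (GG (q i) J δ)ᶜ := measure_biUnion_finset_le _ _
      _ ≤ ∑ _i ∈ Finset.range t, ENNReal.ofReal (2 * J * δ) :=
        Finset.sum_le_sum fun i _ => volume_GG_compl (hq0 i) J δ
      _ = ENNReal.ofReal (η / 4) := by
        rw [Finset.sum_const, Finset.card_range, ← ENNReal.ofReal_nsmul]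
        congr 1
        rw [hδ, nsmul_eq_mul]
        field_simp
        ring
  -- the mean of `T` on the good set
  have h2 : ∫⁻ x in G, T x ≤ ENNReal.ofReal (t * (4 * N * Real.log A)) := by
    have e1 : ∫⁻ x in G, T x =
        ∑ i ∈ Finset.range t, ∫⁻ x in G, TT (1 - 1 / (N : ℝ)) (q i) N x := by
      rw [hT]
      exact lintegral_finsetSum _ fun i _ => measurable_TT _ _ _
    rw [e1]
    calc ∑ i ∈ Finset.range t, ∫⁻ x in G, TT (1 - 1 / (N : ℝ)) (q i) N x
        ≤ ∑ i ∈ Finset.range t, ENNReal.ofReal (4 * N * Real.log A) := by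
          refine Finset.sum_le_sum fun i hi => ?_
          have hi' : i < t := Finset.mem_range.1 hi
          calc ∫⁻ x in G, TT (1 - 1 / (N : ℝ)) (q i) N x
              ≤ ∫⁻ x in GG (q i) J δ, TT (1 - 1 / (N : ℝ)) (q i) N x := by
                apply lintegral_mono_set
                rw [hG]
                exact Set.biInter_subset_of_mem hi
            _ ≤ ENNReal.ofReal ((q i : ℝ) / (2 * δ) * (1 + Real.log J) +
                  N * (Real.log N - Real.log (J + 1) + 1)) :=
                lintegral_TT_le (hq0 i) hN2 hJ1 hJN hδ0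
            _ ≤ ENNReal.ofReal (4 * N * Real.log A) := by
                apply ENNReal.ofReal_le_ofReal
                have a1 : (q i : ℝ) ≤ C * A := by
                  have := qq_le (t := t) (A := A) hA1 hi'
                  have h' : ((qq t A i : ℕ) : ℝ) ≤ (((1 + t * t.factorial) * A : ℕ) : ℝ) := by
                    exact_mod_cast this
                  rw [hq, hC]
                  push_cast at h'
                  exact h'
                have a2 : (q i : ℝ) / (2 * δ) = 4 * t * J / η * q i := by
                  rw [hδ]; field_simp; ring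
                have a3 : 0 ≤ 1 + Real.log J := by
                  rw [hlogJ]
                  have : 0 ≤ ((τ : ℝ) - 2) * Real.log A :=
                    mul_nonneg (by linarith) (by linarith)
                  linarith
                have a4 : 1 + Real.log J ≤ 1 + τ * Real.log A := by
                  rw [hlogJ]
                  nlinarith
                have a5 : (J : ℝ) * A * A = N := by
                  rw [hJr, hNr, mul_assoc, ← pow_two, ← pow_add]
                  congr 1
                  omega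
                have a6 : (q i : ℝ) / (2 * δ) * (1 + Real.log J) ≤ N := by
                  rw [a2]
                  calc 4 * t * J / η * (q i : ℝ) * (1 + Real.log J)
                      ≤ 4 * t * J / η * (C * A) * (1 + τ * Real.log A) := by
                        gcongr
                    _ = J * A * (4 * t * C / η * (1 + τ * Real.log A)) := by ring
                    _ ≤ J * A * A := by gcongr
                    _ = N := a5
                have a7 : Real.log N - Real.log (J + 1) ≤ 2 * Real.log A := by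
                  have : Real.log J ≤ Real.log (J + 1) :=
                    Real.log_le_log hJ0 (by linarith)
                  rw [hlogJ] at this
                  rw [hlogN]
                  linarith
                have a8 : (N : ℝ) * (Real.log N - Real.log (J + 1) + 1) ≤
                    N * (2 * Real.log A + 1) := by gcongr
                nlinarith
      _ = ENNReal.ofReal (t * (4 * N * Real.log A)) := by
          rw [Finset.sum_const, Finset.card_range, ← ENNReal.ofReal_nsmul, nsmul_eq_mul]
  -- Markov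
  have h3 : volume {x | x ∈ G ∧ ENNReal.ofReal c ≤ T x} ≤ ENNReal.ofReal (η / 4) := by
    have m1 : ENNReal.ofReal c * (volume.restrict G) {x | ENNReal.ofReal c ≤ T x} ≤
        ∫⁻ x in G, T x := mul_meas_ge_le_lintegral hTm _
    have m2 : (volume.restrict G) {x | ENNReal.ofReal c ≤ T x} =
        volume {x | x ∈ G ∧ ENNReal.ofReal c ≤ T x} := by
      rw [Measure.restrict_apply (measurableSet_le measurable_const hTm)]
      congr 1
      ext x
      simp [and_comm]
    rw [m2] at m1
    have m3 := m1.trans h2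
    have m4 : ENNReal.ofReal (t * (4 * N * Real.log A)) ≤
        ENNReal.ofReal c * ENNReal.ofReal (η / 4) := by
      rw [← ENNReal.ofReal_mul hc0.le]
      apply ENNReal.ofReal_le_ofReal
      rw [hc, hlogN]
      have m5 : 64 ≤ τ * η := by
        rw [div_le_iff₀ hη] at hτη
        exact hτη
      have m6 : (0 : ℝ) ≤ t * N * Real.log A := by positivity
      nlinarith
    have m7 := m3.trans m4
    exact (ENNReal.mul_le_mul_iff_right (ENNReal.ofReal_pos.2 hc0).ne' ENNReal.ofReal_ne_top).1 m7
  -- inclusion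
  have h4 : {x : UnitAddCircle | Real.exp (-1) <
      ((stepB_s t q N).map fun k => ‖1 - ec x ^ k‖).prod} ⊆
      Gᶜ ∪ {x | x ∈ G ∧ ENNReal.ofReal c ≤ T x} := by
    intro x hx
    by_contra hcon
    simp only [Set.mem_union, Set.mem_compl_iff, Set.mem_ofPred_eq, not_or, not_not, not_and,
      not_le] at hcon
    have hTx := hcon.2 hcon.1
    have hom : ∀ u < N, ∀ v < N, u ≠ v → 2 * om t q u v ≤ t := fun u hu v hv huv =>
      om_qq_le hA1 le_rfl hu hv huv
    have hlog := log_prod_le t hq0 hN2 hom (x := x) (c := c) hTx.le hc0.le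
    have hx' : Real.exp (-1) < ((stepB_s t q N).map fun k => ‖1 - ec x ^ k‖).prod := hx
    rw [stepB_prod] at hx'
    have h5 := lt_of_lt_of_le hx' hlog
    rw [Real.exp_lt_exp] at h5
    have h6 : (t : ℝ) * N * (1 - Real.log N) + 2 * c = t * N * (1 - Real.log N / 2) := by
      rw [hc]; ring
    rw [h6] at h5
    have h7 : 4 ≤ Real.log N := by rw [hlogN]; nlinarith
    have e1 : (1 : ℝ) ≤ t := by rw [ht]; push_cast; linarith
    have e2 : (1 : ℝ) ≤ N := by exact_mod_cast (by omega : 1 ≤ N)
    have h8 : (1 : ℝ) ≤ t * N := one_le_mul_of_one_le_of_one_le e1 e2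
    have h9 : (t : ℝ) * N * (1 - Real.log N / 2) ≤ (t : ℝ) * N * (-1) :=
      mul_le_mul_of_nonneg_left (by linarith) (by positivity)
    linarith
  calc volume _ ≤ volume (Gᶜ ∪ {x | x ∈ G ∧ ENNReal.ofReal c ≤ T x}) := measure_mono h4
    _ ≤ volume Gᶜ + volume {x | x ∈ G ∧ ENNReal.ofReal c ≤ T x} := measure_union_le _ _
    _ ≤ ENNReal.ofReal (η / 4) + ENNReal.ofReal (η / 4) := add_le_add h1 h3
    _ = ENNReal.ofReal (η / 2) := by
      rw [← ENNReal.ofReal_add (by positivity) (by positivity)]
      congr 1
      ring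
    _ ≤ ENNReal.ofReal η := ENNReal.ofReal_le_ofReal (by linarith)

end Pool.Agent.Konyagin
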