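import Pool.Agent.Lib.MP_9faca0_an.StepA
import Pool.Agent.Lib.MP_9faca0_an.StepB

/-!
# Exponential sums tending to zero in measure, and the disproof

* `stepC`: apply `stepB` with `η = ε/2`, then `stepA` to `r • s` with `ε = 1`, `r` large:
  `‖ES K x‖ exp (Z x) = P (M • x)^r`, where `P = ∏ ‖1 - z^k‖`. Off `{P (M • x) > e^{-1}}` (measure
  `≤ ε/2`, `measurePreserving_nsmul'`) and off `{|Z| ≥ r/2}` (Chebyshev, measure
  `≤ 4 C (r card s + 1) / r^2`), `‖ES K x‖ ≤ e^{-r + r/2}`.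
* `final`: `K_n` for `ε = 2^{-n-3}`; `E = (0, 2π] ∖ ⋃_n {t : ‖ES K_n (t/2π)‖ > 2^{-n-3}}`.
-/

set_option autoImplicit false

open MeasureTheory Complex Filter Topology

namespace Pool.Agent.Konyagin

private lemma stepC_r (C : ℝ) (n : ℕ) {ε : ℝ} (hε : 0 < ε) :
    ∃ r : ℕ, 0 < r ∧ Real.exp (-(r : ℝ) / 2) ≤ ε ∧
      4 * (C * ((r : ℝ) * n + 1)) / (r : ℝ) ^ 2 ≤ ε / 2 := by
  have h1 : Tendsto (fun r : ℕ => Real.exp (-(r : ℝ) / 2)) atTop (𝓝 0) := by
    have h := Real.tendsto_exp_atBot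
    refine h.comp ?_
    have h2 : Tendsto (fun r : ℕ => (r : ℝ) / 2) atTop atTop :=
      tendsto_natCast_atTop_atTop.atTop_div_const (by norm_num)
    refine (tendsto_neg_atTop_atBot.comp h2).congr fun r => ?_
    simp [neg_div]
  have h2 : Tendsto (fun r : ℕ => 4 * (C * ((r : ℝ) * n + 1)) / (r : ℝ) ^ 2) atTop (𝓝 0) := by
    have e : ∀ r : ℕ, 0 < r → 4 * C * n * (1 / (r : ℝ)) + 4 * C * (1 / (r : ℝ)) * (1 / (r : ℝ)) =
        4 * (C * ((r : ℝ) * n + 1)) / (r : ℝ) ^ 2 := by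
      intro r hr
      have : (r : ℝ) ≠ 0 := by positivity
      field_simp
    have h3 := tendsto_one_div_atTop_nhds_zero_nat (𝕜 := ℝ)
    have h4 : Tendsto (fun r : ℕ => 4 * C * n * (1 / (r : ℝ)) +
        4 * C * (1 / (r : ℝ)) * (1 / (r : ℝ))) atTop (𝓝 (4 * C * n * 0 + 4 * C * 0 * 0)) :=
      (h3.const_mul _).add ((h3.const_mul _).mul h3)
    rw [show (4 * C * n * 0 + 4 * C * 0 * 0 : ℝ) = 0 by ring] at h4
    refine h4.congr' ?_
    filter_upwards [eventually_gt_atTop 0] with r hr using e r hr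
  have h3 := (h1.eventually (gt_mem_nhds hε)).and ((h2.eventually (gt_mem_nhds (half_pos hε))).and
    (eventually_gt_atTop 0))
  obtain ⟨r, hr1, hr2, hr3⟩ := h3.exists
  exact ⟨r, hr3, hr1.le, hr2.le⟩

theorem stepC {ε : ℝ} (hε : 0 < ε) :
    ∃ K : Finset ℕ, K.Nonempty ∧ volume {x : UnitAddCircle | ε < ‖ES K x‖} ≤ ENNReal.ofReal ε := by
  obtain ⟨s, hs, hP⟩ := stepB (half_pos hε)
  set P : UnitAddCircle → ℝ := fun x => (s.map fun k => ‖1 - ec x ^ k‖).prod with hPdef
  have hP' : volume {x : UnitAddCircle | Real.exp (-1) < P x} ≤ ENNReal.ofReal (ε / 2) := hP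
  have hPc : Continuous P := by
    rw [hPdef]
    refine continuous_multiset_prod _ fun k _ => ?_
    exact (continuous_const.sub (continuous_ec.pow k)).norm
  have hP0 : ∀ x, 0 ≤ P x := by
    intro x
    rw [hPdef]
    apply Multiset.prod_nonneg
    intro a ha
    obtain ⟨k, _, rfl⟩ := Multiset.mem_map.1 ha
    positivity
  set C : ℝ := ∫ x : UnitAddCircle, X x ^ 2 with hC
  obtain ⟨r, hr0, hr1, hr2⟩ := stepC_r C (Multiset.card s) hε
  have hr0' : (0 : ℝ) < r := by exact_mod_cast hr0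
  obtain ⟨M, K, Z, hM, hK, hZ, hZ2, hid⟩ := stepA (r • s) (by
    intro k hk
    exact hs k (Multiset.mem_of_mem_nsmul hk)) one_pos
  refine ⟨K, hK, ?_⟩
  have hid' : ∀ᵐ x : UnitAddCircle, ‖ES K x‖ * Real.exp (Z x) = P (M • x) ^ r := by
    filter_upwards [hid] with x hx
    rw [hx, hPdef]
    simp only [Multiset.map_nsmul, Multiset.prod_nsmul, ec_nsmul]
    congr 2
    refine Multiset.map_congr rfl fun k _ => ?_
    rw [← pow_mul, mul_comm]
  have hA : volume {x : UnitAddCircle | Real.exp (-1) < P (M • x)} ≤ ENNReal.ofReal (ε / 2) := by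
    have h1 := (measurePreserving_nsmul' hM).measure_preimage
      (s := {x : UnitAddCircle | Real.exp (-1) < P x})
      (isOpen_lt continuous_const hPc).measurableSet.nullMeasurableSet
    have h2 : (fun x : UnitAddCircle => M • x) ⁻¹' {x | Real.exp (-1) < P x} =
      {x | Real.exp (-1) < P (M • x)} := rfl
    rw [h2] at h1
    rw [h1]
    exact hP'
  have hB : volume {x : UnitAddCircle | (r : ℝ) ^ 2 / 4 ≤ Z x ^ 2} ≤ ENNReal.ofReal (ε / 2) := by
    have h1 := mul_meas_ge_le_integral_of_nonneg (μ := (volume : Measure UnitAddCircle))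
      (f := fun x => Z x ^ 2) (Eventually.of_forall fun x => by positivity) hZ.integrable_sq
      ((r : ℝ) ^ 2 / 4)
    have h2 : (volume : Measure UnitAddCircle).real {x | (r : ℝ) ^ 2 / 4 ≤ Z x ^ 2} ≤ ε / 2 := by
      have h3 : (∫ x, Z x ^ 2) ≤ C * ((r : ℝ) * Multiset.card s + 1) := by
        have := hZ2
        rw [Multiset.card_nsmul] at this
        push_cast at this
        exact this
      have h4 : (0 : ℝ) < (r : ℝ) ^ 2 := by positivity
      rw [div_le_iff₀ h4] at hr2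
      have h5 := h1.trans h3
      have h6 : (r : ℝ) ^ 2 * (volume : Measure UnitAddCircle).real {x | (r : ℝ) ^ 2 / 4 ≤ Z x ^ 2}
          ≤ (r : ℝ) ^ 2 * (ε / 2) := by
        linarith
      exact le_of_mul_le_mul_left h6 h4
    have h3 := ENNReal.ofReal_le_ofReal h2
    rw [Measure.real, ENNReal.ofReal_toReal (measure_ne_top _ _)] at h3
    exact h3
  have hincl : {x : UnitAddCircle | ε < ‖ES K x‖} ≤ᵐ[volume]
      ({x : UnitAddCircle | Real.exp (-1) < P (M • x)} ∪
        {x : UnitAddCircle | (r : ℝ) ^ 2 / 4 ≤ Z x ^ 2} : Set UnitAddCircle) := by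
    filter_upwards [hid'] with x hx hx2
    by_contra hcon
    have hcon' : ¬ (Real.exp (-1) < P (M • x) ∨ (r : ℝ) ^ 2 / 4 ≤ Z x ^ 2) := hcon
    rw [not_or, not_lt, not_le] at hcon'
    obtain ⟨c1, c2⟩ := hcon'
    have c3 : -((r : ℝ) / 2) < Z x := by
      apply neg_lt_of_abs_lt
      apply abs_lt_of_sq_lt_sq _ (by positivity)
      calc Z x ^ 2 < (r : ℝ) ^ 2 / 4 := c2
        _ = ((r : ℝ) / 2) ^ 2 := by ring
    have c4 : P (M • x) ^ r ≤ Real.exp (-(r : ℝ)) := by
      calc P (M • x) ^ r ≤ Real.exp (-1) ^ r := pow_le_pow_left₀ (hP0 _) c1 r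
        _ = Real.exp (-(r : ℝ)) := by
          rw [← Real.exp_nat_mul]; congr 1; ring
    have c5 : ‖ES K x‖ = P (M • x) ^ r * Real.exp (-Z x) := by
      rw [← hx, mul_assoc, ← Real.exp_add]
      simp
    have c6 : ‖ES K x‖ ≤ ε := by
      rw [c5]
      calc P (M • x) ^ r * Real.exp (-Z x) ≤ Real.exp (-(r : ℝ)) * Real.exp ((r : ℝ) / 2) := by
            apply mul_le_mul c4 _ (Real.exp_pos _).le (Real.exp_pos _).le
            apply Real.exp_le_exp.2
            linarith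
        _ = Real.exp (-(r : ℝ) / 2) := by rw [← Real.exp_add]; congr 1; ring
        _ ≤ ε := hr1
    have hx2' : ε < ‖ES K x‖ := hx2
    linarith
  calc volume {x : UnitAddCircle | ε < ‖ES K x‖}
      ≤ volume ({x : UnitAddCircle | Real.exp (-1) < P (M • x)} ∪
        {x : UnitAddCircle | (r : ℝ) ^ 2 / 4 ≤ Z x ^ 2}) := measure_mono_ae hincl
    _ ≤ _ := measure_union_le _ _
    _ ≤ ENNReal.ofReal (ε / 2) + ENNReal.ofReal (ε / 2) := add_le_add hA hB
    _ = ENNReal.ofReal ε := by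
      rw [← ENNReal.ofReal_add (by positivity) (by positivity)]
      congr 1
      ring

/-- the exponential sums in the variable `t = 2 π x` -/
private lemma ES_eq (K : Finset ℕ) (t : ℝ) :
    ∑ k ∈ K, Complex.exp ((k : ℂ) * (t : ℂ) * Complex.I) =
      ES K (((2 * Real.pi)⁻¹ * t : ℝ) : UnitAddCircle) := by
  unfold ES
  refine Finset.sum_congr rfl fun k _ => ?_
  rw [ec_coe, ← Complex.exp_nat_mul]
  congr 1
  push_cast
  have : (Real.pi : ℂ) ≠ 0 := by exact_mod_cast Real.pi_ne_zero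
  field_simp

theorem final :
    ¬ (∀ E : Set ℝ, E ⊆ Set.Ioc 0 (2 * Real.pi) → MeasurableSet E → 0 < volume E →
      ∃ c : ℝ, 0 < c ∧ ∀ K : Finset ℕ, K.Nonempty →
        c ≤ ∫ t in E, ‖∑ k ∈ K, Complex.exp ((k : ℂ) * (t : ℂ) * Complex.I)‖) := by
  intro hcon
  have hex : ∀ n : ℕ, ∃ K : Finset ℕ, K.Nonempty ∧
      volume {x : UnitAddCircle | (1 / 2 : ℝ) ^ (n + 3) < ‖ES K x‖} ≤
        ENNReal.ofReal ((1 / 2 : ℝ) ^ (n + 3)) := fun n => stepC (by positivity)
  choose K hK hvol using hex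
  set V : ℕ → Set UnitAddCircle := fun n => {x | (1 / 2 : ℝ) ^ (n + 3) < ‖ES (K n) x‖} with hV
  have hVm : ∀ n, MeasurableSet (V n) := by
    intro n
    apply IsOpen.measurableSet
    apply isOpen_lt continuous_const
    unfold ES
    exact (continuous_finsetSum _ fun k _ => continuous_ec.pow k).norm
  set φ : ℝ → UnitAddCircle := fun t => (((2 * Real.pi)⁻¹ * t : ℝ) : UnitAddCircle) with hφ
  have hφm : Measurable φ :=
    (AddCircle.measurable_mk').comp (measurable_const_mul _)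
  set I : Set ℝ := Set.Ioc 0 (2 * Real.pi) with hI
  have hpi := Real.pi_pos
  -- scaling of measures
  have hscale : ∀ W : Set UnitAddCircle, MeasurableSet W →
      volume (I ∩ φ ⁻¹' W) = ENNReal.ofReal (2 * Real.pi) * volume W := by
    intro W hW
    have h1 : I ∩ φ ⁻¹' W = (fun t => (2 * Real.pi)⁻¹ * t) ⁻¹'
        (Set.Ioc (0 : ℝ) 1 ∩ ((↑) : ℝ → UnitAddCircle) ⁻¹' W) := by
      ext t
      simp only [hI, hφ, Set.mem_inter_iff, Set.mem_Ioc, Set.mem_preimage]
      have a1 : 0 < (2 * Real.pi)⁻¹ * t ↔ 0 < t := by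
        rw [mul_pos_iff_of_pos_left (by positivity)]
      have a2 : (2 * Real.pi)⁻¹ * t ≤ 1 ↔ t ≤ 2 * Real.pi := by
        rw [inv_mul_le_iff₀ (by positivity), mul_one]
      rw [a1, a2]
    rw [h1, Real.volume_preimage_mul_left (by positivity)]
    have h2 := (UnitAddCircle.measurePreserving_mk 0).measure_preimage hW.nullMeasurableSet
    rw [Measure.restrict_apply (AddCircle.measurable_mk' hW), zero_add] at h2
    rw [Set.inter_comm, h2, inv_inv, abs_of_pos (by positivity)]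
  set E : Set ℝ := I \ ⋃ n, φ ⁻¹' (V n) with hE
  have hEm : MeasurableSet E :=
    measurableSet_Ioc.diff (MeasurableSet.iUnion fun n => hφm (hVm n))
  have hvI : volume I = ENNReal.ofReal (2 * Real.pi) := by
    rw [hI, Real.volume_Ioc, sub_zero]
  have hbad : volume (I ∩ ⋃ n, φ ⁻¹' (V n)) ≤ ENNReal.ofReal (2 * Real.pi / 4) := by
    rw [Set.inter_iUnion]
    calc volume (⋃ n, I ∩ φ ⁻¹' (V n)) ≤ ∑' n, volume (I ∩ φ ⁻¹' (V n)) := measure_iUnion_le _
      _ ≤ ∑' n : ℕ, ENNReal.ofReal (2 * Real.pi * (1 / 2 : ℝ) ^ (n + 3)) := by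
        refine ENNReal.tsum_le_tsum fun n => ?_
        rw [hscale _ (hVm n), ENNReal.ofReal_mul (p := 2 * Real.pi) (by positivity)]
        exact mul_le_mul_right (hvol n) _
      _ = ENNReal.ofReal (∑' n : ℕ, 2 * Real.pi * (1 / 2 : ℝ) ^ (n + 3)) := by
        rw [ENNReal.ofReal_tsum_of_nonneg (fun n => by positivity)]
        exact ((summable_geometric_two.mul_left (1 / 8)).congr fun n => by
          rw [pow_add]; ring).mul_left _
      _ = ENNReal.ofReal (2 * Real.pi / 4) := by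
        congr 1
        have : (fun n : ℕ => 2 * Real.pi * (1 / 2 : ℝ) ^ (n + 3)) =
            fun n : ℕ => (2 * Real.pi / 8) * (1 / 2 : ℝ) ^ n := by
          funext n; rw [pow_add]; ring
        rw [this, tsum_mul_left, tsum_geometric_two]
        ring
  have hEpos : 0 < volume E := by
    have h1 : volume I ≤ volume E + volume (I ∩ ⋃ n, φ ⁻¹' (V n)) := by
      have : I ⊆ E ∪ (I ∩ ⋃ n, φ ⁻¹' (V n)) := by
        intro t ht
        by_cases h : t ∈ ⋃ n, φ ⁻¹' (V n)
        · exact Or.inr ⟨ht, h⟩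
        · exact Or.inl ⟨ht, h⟩
      exact (measure_mono this).trans (measure_union_le _ _)
    by_contra hneg
    have h0 : volume E = 0 := by simpa using hneg
    rw [h0, zero_add, hvI] at h1
    have h2 := h1.trans hbad
    rw [ENNReal.ofReal_le_ofReal_iff (by positivity)] at h2
    linarith
  obtain ⟨c, hc, hc'⟩ := hcon E Set.sdiff_subset hEm hEpos
  have hlim : Tendsto (fun n : ℕ => (1 / 2 : ℝ) ^ (n + 3) * (2 * Real.pi)) atTop (𝓝 0) := by
    have h1 : Tendsto (fun n : ℕ => (1 / 2 : ℝ) ^ (n + 3)) atTop (𝓝 0) :=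
      (tendsto_pow_atTop_nhds_zero_of_lt_one (by norm_num) (by norm_num)).comp
        (tendsto_add_atTop_nat 3)
    simpa using h1.mul_const (2 * Real.pi)
  obtain ⟨n, hn⟩ := (hlim.eventually (gt_mem_nhds hc)).exists
  have h1 := hc' (K n) (hK n)
  have hElt : volume E < ⊤ := lt_of_le_of_lt (measure_mono Set.sdiff_subset) (by
    rw [hvI]; exact ENNReal.ofReal_lt_top)
  have h2 : ‖∫ t in E, ‖∑ k ∈ K n, Complex.exp ((k : ℂ) * (t : ℂ) * Complex.I)‖‖ ≤
      (1 / 2 : ℝ) ^ (n + 3) * volume.real E := by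
    apply norm_setIntegral_le_of_norm_le_const hElt
    intro t ht
    rw [norm_norm, ES_eq]
    by_contra hlt
    rw [not_le] at hlt
    exact ht.2 (Set.mem_iUnion.2 ⟨n, hlt⟩)
  have h3 : volume.real E ≤ 2 * Real.pi := by
    have : volume.real E ≤ volume.real I := measureReal_mono Set.sdiff_subset (by
      rw [hvI]; exact ENNReal.ofReal_ne_top)
    rw [Measure.real, Measure.real, hvI, ENNReal.toReal_ofReal (by positivity)] at this
    exact this
  have h4 : (1 / 2 : ℝ) ^ (n + 3) * volume.real E ≤ (1 / 2 : ℝ) ^ (n + 3) * (2 * Real.pi) := by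
    gcongr
  have h5 := (Real.le_norm_self _).trans (h2.trans h4)
  linarith

end Pool.Agent.Konyagin
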