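import Pool.Agent.Lib.MP_9faca0_an.LogSer

/-!
# JOB TBOUND: the truncated mean of `TT`

Good set `GG q J δ = {x : ∀ 1 ≤ j ≤ J, δ ≤ ‖(j q) • x‖}`.
* `volume_GG_compl`: union bound, `measurePreserving_nsmul'`, `volume_norm_lt`.
* `lintegral_TT_le`: `lintegral_tsum`; for `j ≤ J`:
  `∫_{GG} BB q N (j x) ≤ ∫_{δ ≤ ‖q (j x)‖} BB q N (j x) = ∫_{δ ≤ ‖q x‖} BB q N x
   ≤ ∫_{δ ≤ ‖q x‖} q / (4 ‖q x‖^2) = (q/4) ∫_{δ ≤ ‖x‖} ‖x‖^-2 ≤ q / (2 δ)`,
  with `∑_{j ≤ J} r^j / j ≤ ∑ 1/j ≤ 1 + log J` (`harmonic_le_one_add_log`);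
  for `j > J`: `∫ BB q N (j x) = N` and
  `∑_{j > J} r^j / j = log N - ∑_{j ≤ J} r^j/j ≤ log N - ∑_{j≤J} (1/j - 1/N) ≤
   log N - log (J+1) + J/N` (`log_add_one_le_harmonic`, Bernoulli `r^j ≥ 1 - j/N`).
-/

set_option autoImplicit false

open MeasureTheory Complex Filter Topology

namespace Pool.Agent.Konyagin

/-- The good set. -/
def GG (q J : ℕ) (δ : ℝ) : Set UnitAddCircle :=
  {x | ∀ j : ℕ, 1 ≤ j → j ≤ J → δ ≤ ‖q • (j • x)‖}

private theorem continuous_smul_nat (q : ℕ) : Continuous fun x : UnitAddCircle => q • x :=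
  continuous_nsmul q

theorem measurableSet_GG (q J : ℕ) (δ : ℝ) : MeasurableSet (GG q J δ) := by
  have h : GG q J δ = ⋂ j : ℕ, ⋂ (_ : 1 ≤ j), ⋂ (_ : j ≤ J),
      {x : UnitAddCircle | δ ≤ ‖q • (j • x)‖} := by
    ext x
    simp [GG]
  rw [h]
  refine MeasurableSet.iInter fun j => MeasurableSet.iInter fun _ => MeasurableSet.iInter fun _ => ?_
  exact (isClosed_le continuous_const
    ((continuous_smul_nat q).comp (continuous_smul_nat j)).norm).measurableSet

private theorem mp_two {q j : ℕ} (hq : 0 < q) (hj : 0 < j) :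
    MeasurePreserving (fun x : UnitAddCircle => q • (j • x)) volume volume :=
  (measurePreserving_nsmul' hq).comp (measurePreserving_nsmul' hj)

theorem volume_GG_compl {q : ℕ} (hq : 0 < q) (J : ℕ) (δ : ℝ) :
    volume (GG q J δ)ᶜ ≤ ENNReal.ofReal (2 * J * δ) := by
  have hsub : (GG q J δ)ᶜ ⊆ ⋃ j ∈ Finset.range J,
      {x : UnitAddCircle | ‖q • ((j + 1) • x)‖ < δ} := by
    intro x hx
    simp only [GG, Set.mem_compl_iff, Set.mem_ofPred_eq, not_forall, not_le] at hx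
    obtain ⟨j, hj1, hjJ, hj⟩ := hx
    refine Set.mem_biUnion (x := j - 1) ?_ ?_
    · simp only [Finset.coe_range, Set.mem_Iio]
      omega
    · simp only [Set.mem_ofPred_eq]
      rw [Nat.sub_add_cancel hj1]
      exact hj
  refine (measure_mono hsub).trans ((measure_biUnion_finset_le _ _).trans ?_)
  have h1 : ∀ j ∈ Finset.range J,
      volume {x : UnitAddCircle | ‖q • ((j + 1) • x)‖ < δ} ≤ ENNReal.ofReal (2 * δ) := by
    intro j _
    have hms : MeasurableSet {x : UnitAddCircle | ‖x‖ < δ} :=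
      (isOpen_lt continuous_norm continuous_const).measurableSet
    have h2 := (mp_two hq (Nat.succ_pos j)).measure_preimage hms.nullMeasurableSet
    refine le_trans (le_of_eq h2) (volume_norm_lt δ)
  refine (Finset.sum_le_sum h1).trans ?_
  rw [Finset.sum_const, Finset.card_range, nsmul_eq_mul,
    show 2 * (J : ℝ) * δ = J * (2 * δ) by ring,
    ENNReal.ofReal_mul (Nat.cast_nonneg J), ENNReal.ofReal_natCast]

theorem measurable_TT (r : ℝ) (q N : ℕ) : Measurable (TT r q N) := by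
  unfold TT
  refine Measurable.tsum fun j => ENNReal.measurable_ofReal.comp ?_
  exact (((continuous_BB q N).comp (continuous_smul_nat (j + 1))).measurable).const_mul _

private theorem measurable_ofReal_BB (q N : ℕ) :
    Measurable fun x : UnitAddCircle => ENNReal.ofReal (BB q N x) :=
  ENNReal.measurable_ofReal.comp (continuous_BB q N).measurable

/-- The contribution of a small index. -/
private theorem small_term {q N J : ℕ} (hq : 0 < q) {δ : ℝ} (hδ : 0 < δ) {j : ℕ} (hj : j < J) :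
    ∫⁻ x in GG q J δ, ENNReal.ofReal (BB q N ((j + 1) • x)) ≤ ENNReal.ofReal (q / (2 * δ)) := by
  have hms : MeasurableSet {x : UnitAddCircle | δ ≤ ‖q • x‖} :=
    (isClosed_le continuous_const (continuous_smul_nat q).norm).measurableSet
  have hms' : MeasurableSet {x : UnitAddCircle | δ ≤ ‖x‖} :=
    (isClosed_le continuous_const continuous_norm).measurableSet
  have hmeas : Measurable fun x : UnitAddCircle => ENNReal.ofReal (1 / ‖x‖ ^ 2) :=
    ENNReal.measurable_ofReal.comp (measurable_const.div (measurable_norm.pow_const 2))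
  have s1 : GG q J δ ⊆ (fun x : UnitAddCircle => (j + 1) • x) ⁻¹'
      {x : UnitAddCircle | δ ≤ ‖q • x‖} := by
    intro x hx
    exact hx (j + 1) (by omega) (by omega)
  have s2 : (∫⁻ x in (fun x : UnitAddCircle => (j + 1) • x) ⁻¹'
      {x : UnitAddCircle | δ ≤ ‖q • x‖}, ENNReal.ofReal (BB q N ((j + 1) • x))) =
      ∫⁻ x in {x : UnitAddCircle | δ ≤ ‖q • x‖}, ENNReal.ofReal (BB q N x) :=
    (measurePreserving_nsmul' (Nat.succ_pos j)).setLIntegral_comp_preimage hms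
      (measurable_ofReal_BB q N)
  have s3 : (∫⁻ x in {x : UnitAddCircle | δ ≤ ‖q • x‖}, ENNReal.ofReal (BB q N x)) ≤
      ∫⁻ x in {x : UnitAddCircle | δ ≤ ‖q • x‖},
        ENNReal.ofReal ((q : ℝ) / 4) * ENNReal.ofReal (1 / ‖q • x‖ ^ 2) := by
    refine setLIntegral_mono' hms fun x hx => ?_
    have hx' : δ ≤ ‖q • x‖ := hx
    have hne : q • x ≠ 0 := by
      intro h
      rw [h, norm_zero] at hx'
      linarith
    rw [← ENNReal.ofReal_mul (by positivity)]
    refine ENNReal.ofReal_le_ofReal ((BB_le hq N hne).trans (le_of_eq ?_))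
    have : ‖q • x‖ ≠ 0 := norm_ne_zero_iff.mpr hne
    field_simp
  have s4 : (∫⁻ x in {x : UnitAddCircle | δ ≤ ‖q • x‖},
        ENNReal.ofReal ((q : ℝ) / 4) * ENNReal.ofReal (1 / ‖q • x‖ ^ 2)) =
      ∫⁻ x in {x : UnitAddCircle | δ ≤ ‖x‖},
        ENNReal.ofReal ((q : ℝ) / 4) * ENNReal.ofReal (1 / ‖x‖ ^ 2) := by
    refine (measurePreserving_nsmul' hq).setLIntegral_comp_preimage hms'
      (f := fun x : UnitAddCircle =>
        ENNReal.ofReal ((q : ℝ) / 4) * ENNReal.ofReal (1 / ‖x‖ ^ 2)) ?_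
    exact hmeas.const_mul _
  have s5 : (∫⁻ x in {x : UnitAddCircle | δ ≤ ‖x‖},
        ENNReal.ofReal ((q : ℝ) / 4) * ENNReal.ofReal (1 / ‖x‖ ^ 2)) ≤
      ENNReal.ofReal ((q : ℝ) / 4) * ENNReal.ofReal (2 / δ) := by
    rw [lintegral_const_mul _ hmeas]
    exact mul_le_mul' le_rfl (lintegral_inv_sq hδ)
  refine (lintegral_mono_set s1).trans (s2.le.trans (s3.trans (s4.le.trans (s5.trans ?_))))
  rw [← ENNReal.ofReal_mul (by positivity)]
  refine ENNReal.ofReal_le_ofReal (le_of_eq ?_)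
  field_simp
  ring

/-- The contribution of a large index. -/
private theorem large_term {q N J : ℕ} (hq : 0 < q) (δ : ℝ) (j : ℕ) :
    ∫⁻ x in GG q J δ, ENNReal.ofReal (BB q N ((j + 1) • x)) ≤ N := by
  refine (setLIntegral_le_lintegral _ _).trans ?_
  rw [(measurePreserving_nsmul' (Nat.succ_pos j)).lintegral_comp (measurable_ofReal_BB q N),
    lintegral_BB hq N]

private theorem harmonic_sum (J : ℕ) :
    (∑ j ∈ Finset.range J, 1 / ((j : ℝ) + 1)) = (harmonic J : ℝ) := by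
  simp [harmonic]

private theorem hasSum_log_N {N : ℕ} (hN : 2 ≤ N) :
    HasSum (fun j : ℕ => (1 - 1 / (N : ℝ)) ^ (j + 1) / ((j : ℝ) + 1)) (Real.log N) := by
  have hN' : (2 : ℝ) ≤ N := by exact_mod_cast hN
  have h1 : 1 / (N : ℝ) ≤ 1 / 2 := one_div_le_one_div_of_le (by norm_num) hN'
  have h2 : 0 < 1 / (N : ℝ) := by positivity
  have h := Real.hasSum_pow_div_log_of_abs_lt_one (x := 1 - 1 / (N : ℝ))
    (by rw [abs_of_nonneg (by linarith)]; linarith)
  have h3 : -Real.log (1 - (1 - 1 / (N : ℝ))) = Real.log N := by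
    rw [show (1 : ℝ) - (1 - 1 / (N : ℝ)) = (N : ℝ)⁻¹ by ring, Real.log_inv, neg_neg]
  rw [h3] at h
  exact h

private theorem tail_le {N J : ℕ} (hN : 2 ≤ N) (hJN : J ≤ N) :
    ∑' j : ℕ, (1 - 1 / (N : ℝ)) ^ (j + J + 1) / (((j + J : ℕ) : ℝ) + 1) ≤
      Real.log N - Real.log (J + 1) + 1 := by
  have hN' : (2 : ℝ) ≤ N := by exact_mod_cast hN
  have hs := hasSum_log_N hN
  have h1 := hs.summable.sum_add_tsum_nat_add J
  rw [hs.tsum_eq] at h1
  have h2 : ∑ j ∈ Finset.range J, (1 / ((j : ℝ) + 1) - 1 / N) ≤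
      ∑ j ∈ Finset.range J, (1 - 1 / (N : ℝ)) ^ (j + 1) / ((j : ℝ) + 1) := by
    refine Finset.sum_le_sum fun j _ => ?_
    have hb := one_add_mul_le_pow (a := -(1 / (N : ℝ)))
      (by
        have : 1 / (N : ℝ) ≤ 1 / 2 := one_div_le_one_div_of_le (by norm_num) hN'
        linarith) (j + 1)
    have hj : (0 : ℝ) < (j : ℝ) + 1 := by positivity
    rw [le_div_iff₀ hj]
    have e1 : (1 / ((j : ℝ) + 1) - 1 / N) * ((j : ℝ) + 1) = 1 + ((j + 1 : ℕ) : ℝ) * -(1 / (N : ℝ)) := by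
      push_cast
      field_simp
      ring
    rw [e1]
    refine hb.trans (le_of_eq ?_)
    ring
  rw [Finset.sum_sub_distrib, harmonic_sum, Finset.sum_const, Finset.card_range,
    nsmul_eq_mul] at h2
  have h3 := log_add_one_le_harmonic J
  have h4 : (J : ℝ) * (1 / N) ≤ 1 := by
    rw [mul_one_div, div_le_one (by linarith)]
    exact_mod_cast hJN
  push_cast at h3
  have h5 : (fun i : ℕ => (1 - 1 / (N : ℝ)) ^ (i + J + 1) / (((i + J : ℕ) : ℝ) + 1)) =
      fun i : ℕ => (1 - 1 / (N : ℝ)) ^ ((i + J) + 1) / (((i + J : ℕ) : ℝ) + 1) := rfl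
  rw [h5]
  linarith

theorem lintegral_TT_le {q N J : ℕ} (hq : 0 < q) (hN : 2 ≤ N) (hJ : 1 ≤ J) (hJN : J ≤ N)
    {δ : ℝ} (hδ : 0 < δ) :
    ∫⁻ x in GG q J δ, TT (1 - 1 / (N : ℝ)) q N x ≤
      ENNReal.ofReal (q / (2 * δ) * (1 + Real.log J) +
        N * (Real.log N - Real.log (J + 1) + 1)) := by
  have _hJ' := hJ
  have hN' : (2 : ℝ) ≤ N := by exact_mod_cast hN
  have hr0 : 0 ≤ 1 - 1 / (N : ℝ) := by
    have : 1 / (N : ℝ) ≤ 1 / 2 := one_div_le_one_div_of_le (by norm_num) hN'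
    linarith
  have hr1 : 1 - 1 / (N : ℝ) ≤ 1 := by
    have : 0 < 1 / (N : ℝ) := by positivity
    linarith
  set r : ℝ := 1 - 1 / (N : ℝ) with hr
  have hcoef : ∀ j : ℕ, 0 ≤ r ^ (j + 1) / ((j : ℝ) + 1) := fun j => by positivity
  have hterm : ∀ j : ℕ, ∫⁻ x in GG q J δ,
      ENNReal.ofReal (r ^ (j + 1) / ((j : ℝ) + 1) * BB q N ((j + 1) • x)) =
      ENNReal.ofReal (r ^ (j + 1) / ((j : ℝ) + 1)) *
        ∫⁻ x in GG q J δ, ENNReal.ofReal (BB q N ((j + 1) • x)) := by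
    intro j
    have hm : Measurable fun x : UnitAddCircle => ENNReal.ofReal (BB q N ((j + 1) • x)) :=
      (measurable_ofReal_BB q N).comp (continuous_smul_nat (j + 1)).measurable
    rw [← lintegral_const_mul _ hm]
    refine lintegral_congr fun x => ?_
    exact ENNReal.ofReal_mul (hcoef j)
  have hsum : ∫⁻ x in GG q J δ, TT r q N x = ∑' j : ℕ, ∫⁻ x in GG q J δ,
      ENNReal.ofReal (r ^ (j + 1) / ((j : ℝ) + 1) * BB q N ((j + 1) • x)) := by
    unfold TT
    refine lintegral_tsum fun j => (Measurable.aemeasurable ?_)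
    exact ENNReal.measurable_ofReal.comp
      ((((continuous_BB q N).comp (continuous_smul_nat (j + 1))).measurable).const_mul _)
  have hsplit := Summable.sum_add_tsum_nat_add' (k := J)
    (f := fun j : ℕ => ∫⁻ x in GG q J δ,
      ENNReal.ofReal (r ^ (j + 1) / ((j : ℝ) + 1) * BB q N ((j + 1) • x))) ENNReal.summable
  refine (hsum.trans hsplit.symm).le.trans ?_
  have hA : ∑ j ∈ Finset.range J, ∫⁻ x in GG q J δ,
      ENNReal.ofReal (r ^ (j + 1) / ((j : ℝ) + 1) * BB q N ((j + 1) • x)) ≤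
      ENNReal.ofReal (q / (2 * δ) * (1 + Real.log J)) := by
    have h1 : ∀ j ∈ Finset.range J, ∫⁻ x in GG q J δ,
        ENNReal.ofReal (r ^ (j + 1) / ((j : ℝ) + 1) * BB q N ((j + 1) • x)) ≤
        ENNReal.ofReal (1 / ((j : ℝ) + 1) * (q / (2 * δ))) := by
      intro j hj
      rw [hterm, ENNReal.ofReal_mul (by positivity)]
      refine mul_le_mul' (ENNReal.ofReal_le_ofReal ?_) (small_term hq hδ (Finset.mem_range.mp hj))
      exact div_le_div_of_nonneg_right (pow_le_one₀ hr0 hr1) (by positivity)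
    refine (Finset.sum_le_sum h1).trans ?_
    rw [← ENNReal.ofReal_sum_of_nonneg (fun j _ => by positivity), ← Finset.sum_mul,
      harmonic_sum, mul_comm]
    refine ENNReal.ofReal_le_ofReal (mul_le_mul_of_nonneg_left ?_ (by positivity))
    exact harmonic_le_one_add_log J
  have hB : ∑' j : ℕ, ∫⁻ x in GG q J δ,
      ENNReal.ofReal (r ^ (j + J + 1) / (((j + J : ℕ) : ℝ) + 1) * BB q N ((j + J + 1) • x)) ≤
      ENNReal.ofReal (N * ∑' j : ℕ, r ^ (j + J + 1) / (((j + J : ℕ) : ℝ) + 1)) := by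
    have h1 : ∀ j : ℕ, ∫⁻ x in GG q J δ,
        ENNReal.ofReal (r ^ (j + J + 1) / (((j + J : ℕ) : ℝ) + 1) * BB q N ((j + J + 1) • x)) ≤
        N * ENNReal.ofReal (r ^ (j + J + 1) / (((j + J : ℕ) : ℝ) + 1)) := by
      intro j
      rw [hterm (j + J), mul_comm]
      exact mul_le_mul' (large_term hq δ (j + J)) le_rfl
    refine (ENNReal.tsum_le_tsum h1).trans ?_
    rw [ENNReal.tsum_mul_left, ENNReal.ofReal_mul (Nat.cast_nonneg N), ENNReal.ofReal_natCast,
      ENNReal.ofReal_tsum_of_nonneg (fun j => hcoef (j + J))]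
    exact (summable_nat_add_iff J).mpr (hasSum_log_N hN).summable
  refine (add_le_add hA hB).trans ?_
  have hlogJ : 0 ≤ Real.log J := Real.log_natCast_nonneg J
  rw [← ENNReal.ofReal_add (by positivity)
    (mul_nonneg (Nat.cast_nonneg N) (tsum_nonneg fun j => hcoef (j + J)))]
  refine ENNReal.ofReal_le_ofReal (add_le_add_right ?_ _)
  exact mul_le_mul_of_nonneg_left (tail_le hN hJN) (Nat.cast_nonneg N)

end Pool.Agent.Konyagin
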